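import Pool.Agent.W_448rc_h10.RcH
import Pool.Agent.W_448cl_h64.ClK
import Pool.Agent.W_448t8_h97.TH
import Pool.Agent.W_448win_h80.W1

/-!
MP_448cb3_co, G2, case B, window `j - 1`: the part of a functional with free weights which
comes from the window `j - 1`, in row terms (components with at least four sites).  helper10.
-/

namespace Pool.Agent.GaussPoset.Wd

set_option linter.unusedSectionVars false

open Finset Win Win.I2 Win.Rc EK Win.Pn
open Pool.Agent.GaussPoset.Win.SO (F5 N1f N5f CQ envc)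

universe u

variable {P : Type u} [Fintype P] [PartialOrder P] [DecidableEq P] {r j i : ℕ}
  {t : Tops P} {lo hi : ℕ → ℕ} {e : ℕ → ℕ → P} {m : ℕ} {x : ℕ → P} {c : ℕ → ℤ} {β : ℤ}
  {S : Finset P}

/-- the contribution of the window `j - 1` to the own value of a part -/
noncomputable def own1 (W : Wt) (i : ℕ) (t : Tops P) : ℤ :=
  W.a3 * A3 i t + W.a5 * B5 i t + W.a6 * C6 i t + W.a8 * C8 i t + W.a10 * C10 i t

/-- the contribution of the window `j` to the own value of a part -/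
noncomputable def own2 (W : Wt) (j : ℕ) (t : Tops P) : ℤ :=
  W.f2 * F2 j t + W.f4 * F4 j t + W.f3 * F3 j t + W.f6 * F6 j t

lemma own_eq (W : Wt) (i j : ℕ) (t : Tops P) : own W i j t = own1 W i t + own2 W j t := by
  unfold own own1 own2
  ring

/-- the sum over the closed pairs in the second order value -/
noncomputable def cqs (i : ℕ) (S : Finset P) : ℤ := ∑ w ∈ CQ i S, envc i S w

/-- the inner 3-site elements: private and common -/
noncomputable def n1 (i : ℕ) (S : Finset P) : ℤ := ((N1f i S).card : ℤ)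

noncomputable def n5 (i : ℕ) (S : Finset P) : ℤ := ((N5f i S).card : ℤ)

section row

variable (h : NJ P r j) (hij : i + 1 = j) (hi1 : 1 ≤ i)
include h hij hi1

lemma NJ.C6_eq (h4 : 4 ≤ (st i (SS i t)).card) :
    C6 i t = Win.QQ i (SS i t) + 2 * n1 i (SS i t) + 2 * n5 i (SS i t) +
      2 * cqs i (SS i t) := by
  unfold C6 n1 n5 cqs
  exact nj_Q6 h hij hi1 t (nj_F5_three h hij hi1 t (by omega))

/-- no closed pair: no term -/
lemma NJ.cqs_zero (h4 : 4 ≤ (st i (SS i t)).card)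
    (h5 : I2.be 5 (st i (SS i t)).card (ZS i (SS i t)) = 0) : cqs i (SS i t) = 0 := by
  have h1 := nj_be5_CQ h hij hi1 t (nj_F5_three h hij hi1 t (by omega))
  rw [h5] at h1
  have h2 : (CQ i (SS i t)).card = 0 := by
    have : ((CQ i (SS i t)).card : ℤ) = 0 := by linarith
    exact_mod_cast this
  unfold cqs
  rw [card_eq_zero.1 h2, sum_empty]

lemma NJ.nfc (t : Tops P) : ((Rd.NfC i (SS i t)).card : ℤ) = n5 i (SS i t) := by
  unfold n5
  rw [W1.nfc_eq h hij hi1 t]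

/-- from the values to the functional -/
theorem NJ.own1_of (W : Wt) (h4 : 4 ≤ (st i (SS i t)).card) {a b q8 q10 Q : ℤ}
    (v : Vals i (SS i t) a b q8 q10) (hQ : Win.QQ i (SS i t) = Q) :
    own1 W i t = W.a3 * a + W.a5 * b +
      W.a6 * (Q + 2 * n1 i (SS i t) + 2 * n5 i (SS i t) + 2 * cqs i (SS i t)) +
        W.a8 * q8 + W.a10 * q10 := by
  obtain ⟨e3, e5⟩ := v.al
  have e6 := NJ.C6_eq h hij hi1 h4
  rw [hQ] at e6
  have e8 : C8 i t = q8 := v.q8
  have e10 : C10 i t = q10 := v.q10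
  have f3 : A3 i t = a := e3
  have f5 : B5 i t = b := e5
  unfold own1
  rw [e6, e8, e10, f3, f5]

variable (B : RowB P j t m x c β)
include B

/-- natural rows -/
theorem NJ.own1_nat (W : Wt) (h4 : 4 ≤ (st i (SS i t)).card) (hc : ∀ k, k < m → c k = 0) {q : ℕ}
    (hq : q ≤ m) (h0 : ∀ z, z ∈ FL i (SS i t) ∨ z ∈ FU' i (SS i t) → sit i z = uc (x q)) :
    own1 W i t = W.a3 * fa i (SS i t) +
      W.a6 * (fa i (SS i t) ^ 2 + 2 * n1 i (SS i t) + 2 * n5 i (SS i t)) -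
        2 * W.a10 * n5 i (SS i t) := by
  have v := h.vals_nat hij hi1 B h4 hc
  rw [NJ.own1_of h hij hi1 W h4 v (h.QQ_nat hij hi1 B hc hq h0), NJ.nfc h hij hi1 t,
    NJ.cqs_zero h hij hi1 h4 v.al.2]
  ring

/-- rows whose inner coefficients vanish (ring, R), no edge at `x 0` -/
theorem NJ.own1_R (W : Wt) (h4 : 4 ≤ (st i (SS i t)).card) (hβ : β ≠ 0)
    (hc : ∀ k, 1 ≤ k → k < m → c k = 0) (hn : 0 ∉ Ed x m) {q : ℕ}
    (hq : q ≤ m) (h0 : ∀ z, z ∈ FL i (SS i t) ∨ z ∈ FU' i (SS i t) → sit i z = uc (x q)) :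
    own1 W i t = W.a3 * fa i (SS i t) +
      W.a6 * (fa i (SS i t) ^ 2 + 2 * n1 i (SS i t) + 2 * n5 i (SS i t)) -
        2 * W.a10 * n5 i (SS i t) := by
  have v := h.vals_R hij hi1 B h4 hβ hc
  rw [NJ.own1_of h hij hi1 W h4 v (h.QQ_R hij hi1 B hc hn hq h0), NJ.nfc h hij hi1 t,
    NJ.cqs_zero h hij hi1 h4 v.al.2]
  ring

/-- fold rows -/
theorem NJ.own1_fold (W : Wt) (hm : 2 ≤ m) (h4 : 4 ≤ (st i (SS i t)).card) (c1 : c 1 = -1)
    (hc : ∀ k, 2 ≤ k → k < m → c k = 0) (hu : (uc (x 0)).card = 1) {q : ℕ}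
    (hq : q ≤ m) (h0 : ∀ z, z ∈ FL i (SS i t) ∨ z ∈ FU' i (SS i t) → sit i z = uc (x q)) :
    own1 W i t = W.a3 * (1 + fa i (SS i t)) +
      W.a6 * (1 + 2 * (if q ≤ 3 then fa i (SS i t) else 0) + fa i (SS i t) ^ 2 +
        2 * n1 i (SS i t) + 2 * n5 i (SS i t)) - 2 * W.a10 * n5 i (SS i t) := by
  have v := h.vals_fold hij hi1 B hm h4 c1 hc hu
  rw [NJ.own1_of h hij hi1 W h4 v (h.QQ_fold hij hi1 B hm h4 c1 hc hu hq h0), NJ.nfc h hij hi1 t,
    NJ.cqs_zero h hij hi1 h4 v.al.2]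
  ring

/-- closed rows -/
theorem NJ.own1_closed (W : Wt) (hm : 2 ≤ m) (h4 : 4 ≤ (st i (SS i t)).card) (c0 : c 0 = 1)
    (c1 : c 1 = -1) (hc : ∀ k, 2 ≤ k → k < m → c k = 0) (hu : (uc (x 0)).card = 2) {q : ℕ}
    (hq : q ≤ m) (h0 : ∀ z, z ∈ FL i (SS i t) ∨ z ∈ FU' i (SS i t) → sit i z = uc (x q)) :
    own1 W i t = W.a3 * fa i (SS i t) - W.a5 +
      W.a6 * (2 * (if q = 3 then fa i (SS i t) else 0) + fa i (SS i t) ^ 2 +
        2 * n1 i (SS i t) + 2 * n5 i (SS i t) + 2 * cqs i (SS i t)) +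
      W.a8 * (((Rd.ETs i (SS i t)).card : ℤ) - fm i (SS i t) x 0) +
        W.a10 * (1 - 2 * n5 i (SS i t)) := by
  have v := h.vals_closed hij hi1 B hm h4 c0 c1 hc hu
  rw [NJ.nfc h hij hi1 t] at v
  rw [NJ.own1_of h hij hi1 W h4 v (h.QQ_closed hij hi1 B hm h4 c0 c1 hc hu hq h0)]
  ring

/-- the share of a pendant over `x k` in row terms -/
theorem NJ.shr_row (W : Wt) (h4 : 4 ≤ (st i (SS i t)).card) {p : P} {k : ℕ} (hk : k ≤ m)
    (up : uc p = {x k}) (hp : p ∈ PD P i) :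
    shr W i p = zc i (topOf : P → Tops P) p * (W.a5 + W.a10) -
      4 * W.a6 * zc i (topOf : P → Tops P) p * (kc p + nn i p - 3) -
      2 * W.a6 * ∑ z ∈ zs i (topOf : P → Tops P) p, kc z -
      2 * W.a8 * zc i (topOf : P → Tops P) p *
        (∑ l ∈ (Ed x m).filter (fun l => l ≤ k + 1 ∧ k ≤ l + 2), c l - fa i (SS i t)) -
      4 * W.a10 * zc i (topOf : P → Tops P) p *
        (((Et x m c).filter (fun l => l ≤ k + 1 ∧ k ≤ l + 2)).card : ℤ) +
      (2 * W.a10 - W.a8) * (zc i (topOf : P → Tops P) p * (zc i (topOf : P → Tops P) p - 1)) -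
      (W.a6 - W.a8 + W.a10) * ∑ z ∈ zs i (topOf : P → Tops P) p,
        ((tw i (topOf : P → Tops P) z).card : ℤ) := by
  have ht : topOf p = t := by
    have h1 : p ⋖ x k := by
      have : x k ∈ uc p := by
        rw [up]
        exact mem_singleton_self _
      exact (mem_uc).1 this
    exact h.top_pen hij hi1 B hk h1
  have e5 := h.net5c hij hi1 B h4 hk up hp
  have e7 := h.net7c hij hi1 B h4 hk up hp
  unfold shr A3 B5
  rw [ht, e5, e7]

end row

end Pool.Agent.GaussPoset.Wd
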