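import Pool.Agent.W_448rd_h10.RdZ
import Pool.Agent.W_448so_h39.FG

/-!
MP_448cb3_co, G2, case B, window `j - 1`: the twins and the charges of a component in the
coordinates of its row.  helper10.
-/

namespace Pool.Agent.GaussPoset.Win.Rc

set_option linter.unusedSectionVars false

open Finset

universe u

variable {P : Type u} [Fintype P] [PartialOrder P] [DecidableEq P] {r i j : ℕ} {t : P}
  {lo hi : ℕ → ℕ} {x : ℕ → ℕ → P} {S : Finset P}

/-- centres near `b` -/
def Nb (lo hi : ℕ → ℕ) (i b : ℕ) : Finset ℕ :=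
  (Ioo (lo i) (hi i)).filter (fun a => a ≤ b + 2 ∧ b ≤ a + 2)

lemma mem_Nb {a b : ℕ} : a ∈ Nb lo hi i b ↔ (lo i < a ∧ a < hi i) ∧ a ≤ b + 2 ∧ b ≤ a + 2 := by
  unfold Nb
  rw [mem_filter, mem_Ioo]

/-- the number of joins over the centre `a` -/
noncomputable def dv (x : ℕ → ℕ → P) (i a : ℕ) : ℕ := dcv (x (i + 1) a) (x (i + 1) (a + 1))

/-- the centres of the twins -/
noncomputable def D2 (x : ℕ → ℕ → P) (lo hi : ℕ → ℕ) (i : ℕ) : Finset ℕ :=
  (Ioo (lo i) (hi i)).filter (fun b => dv x i b = 2)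

lemma mem_D2 {b : ℕ} : b ∈ D2 x lo hi i ↔ (lo i < b ∧ b < hi i) ∧ dv x i b = 2 := by
  unfold D2
  rw [mem_filter, mem_Ioo]

section comp

variable (C : Comp P t (i + 1) lo hi x)
include C

lemma Tr_meet {a b : ℕ} (ha : lo i < a) (ha' : a < hi i) (hb : lo i < b) (hb' : b < hi i) :
    ¬ Disjoint (Tr x i a) (Tr x i b) ↔ a ≤ b + 2 ∧ b ≤ a + 2 := by
  classical
  rw [not_disjoint_iff]
  constructor
  · rintro ⟨v, h1, h2⟩
    obtain ⟨c, c1, c2, rfl⟩ := Tr_sub h1 ha ha'
    rw [mem_Tr C (by omega) ha ha' c1 c2] at h1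
    rw [mem_Tr C (by omega) hb hb' c1 c2] at h2
    omega
  · intro h
    rcases Nat.le_total a b with hab | hab
    · refine ⟨x i (b - 1), ?_, ?_⟩
      · rw [mem_Tr C (by omega) ha ha' (by omega) (by omega)]
        omega
      · rw [mem_Tr C (by omega) hb hb' (by omega) (by omega)]
        omega
    · refine ⟨x i (a - 1), ?_, ?_⟩
      · rw [mem_Tr C (by omega) ha ha' (by omega) (by omega)]
        omega
      · rw [mem_Tr C (by omega) hb hb' (by omega) (by omega)]
        omega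

/-- sums over sets of triples -/
lemma sum_trs (f : Finset P → ℤ) (R : Finset P → Prop) [DecidablePred R] :
    ∑ k ∈ (Trs x lo hi i).filter R, f k =
      ∑ a ∈ (Ioo (lo i) (hi i)).filter (fun a => R (Tr x i a)), f (Tr x i a) := by
  classical
  have h1 : (Trs x lo hi i).filter R =
      ((Ioo (lo i) (hi i)).filter (fun a => R (Tr x i a))).image (Tr x i) := by
    ext k
    unfold Trs
    rw [mem_filter, mem_image, mem_image]
    constructor
    · rintro ⟨⟨a, ha, rfl⟩, h2⟩
      exact ⟨a, mem_filter.2 ⟨ha, h2⟩, rfl⟩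
    · rintro ⟨a, ha, rfl⟩
      rw [mem_filter] at ha
      exact ⟨⟨a, ha.1, rfl⟩, ha.2⟩
  rw [h1, sum_image]
  intro a ha b hb hab
  rw [mem_coe, mem_filter, mem_Ioo] at ha hb
  exact Tr_inj C (by omega) ha.1.1 ha.1.2 hb.1.1 hb.1.2 hab

end comp

section row

variable (C : Comp P t (i + 1) lo hi x) (h : GoodTo P r (i + 1)) (hi1 : 1 ≤ i) (ht : lev t = 0)
  (hS : ∀ y, lev y ≤ i + 2 → (y ∈ S ↔ y ≤ t)) (hno : ∀ z : P, lev z = i + 2 → ¬ Hul.Jn z)
include C h hi1 ht hS hno

lemma nb_filter {b : ℕ} (hb : lo i < b) (hb' : b < hi i) :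
    (Ioo (lo i) (hi i)).filter (fun a => ¬ Disjoint (Tr x i a) (Tr x i b)) = Nb lo hi i b := by
  classical
  ext a
  rw [mem_filter, mem_Ioo, mem_Nb]
  constructor
  · rintro ⟨h1, h2⟩
    exact ⟨h1, (Tr_meet C h1.1 h1.2 hb hb').1 h2⟩
  · rintro ⟨h1, h2⟩
    exact ⟨h1, (Tr_meet C h1.1 h1.2 hb hb').2 h2⟩

/-- upper charges which meet a triple -/
lemma card_ZU_meet {b : ℕ} (hb : lo i < b) (hb' : b < hi i) :
    (((ZU i S).filter (fun z => ¬ Disjoint (sit i z) (Tr x i b))).card : ℤ) =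
      ∑ _a ∈ Nb lo hi i b, (1 : ℤ) := by
  classical
  have hmap : ∀ z ∈ (ZU i S).filter (fun z => ¬ Disjoint (sit i z) (Tr x i b)),
      sit i z ∈ (Trs x lo hi i).filter (fun k => ¬ Disjoint k (Tr x i b)) := by
    intro z hz
    rw [mem_filter] at hz
    obtain ⟨a, a1, a2, a3, -⟩ := ZU_spec C h ht hS hz.1
    rw [mem_filter]
    refine ⟨?_, hz.2⟩
    unfold Trs
    rw [mem_image]
    exact ⟨a, mem_Ioo.2 ⟨a1, a2⟩, a3.symm⟩
  rw [card_eq_sum_card_fiberwise hmap]
  push_cast
  rw [sum_trs C (fun k => ((((ZU i S).filter (fun z => ¬ Disjoint (sit i z) (Tr x i b))).filter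
    (fun z => sit i z = k)).card : ℤ)), nb_filter C h hi1 ht hS hno hb hb']
  refine sum_congr rfl fun a ha => ?_
  rw [mem_Nb] at ha
  have h1 : ((ZU i S).filter (fun z => ¬ Disjoint (sit i z) (Tr x i b))).filter
      (fun z => sit i z = Tr x i a) = (ZU i S).filter (fun z => sit i z = Tr x i a) := by
    ext z
    rw [mem_filter, mem_filter, mem_filter]
    constructor
    · rintro ⟨⟨h1, -⟩, h2⟩
      exact ⟨h1, h2⟩
    · rintro ⟨h1, h2⟩
      refine ⟨⟨h1, ?_⟩, h2⟩
      rw [h2]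
      exact (Tr_meet C ha.1.1 ha.1.2 hb hb').2 ha.2
  rw [h1, card_ZU_Tr C h ht hS ha.1.1 ha.1.2]
  norm_num

/-- lower charges which meet a triple -/
lemma card_ZL_meet {b : ℕ} (hb : lo i < b) (hb' : b < hi i) :
    (((ZL i S).filter (fun z => ¬ Disjoint (sit i z) (Tr x i b))).card : ℤ) =
      ∑ a ∈ Nb lo hi i b, (dv x i a : ℤ) := by
  classical
  have hmap : ∀ z ∈ (ZL i S).filter (fun z => ¬ Disjoint (sit i z) (Tr x i b)),
      sit i z ∈ (Trs x lo hi i).filter (fun k => ¬ Disjoint k (Tr x i b)) := by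
    intro z hz
    rw [mem_filter] at hz
    obtain ⟨a, a1, a2, a3, -⟩ := ZL_spec C h hi1 ht hS hno hz.1
    rw [mem_filter]
    refine ⟨?_, hz.2⟩
    unfold Trs
    rw [mem_image]
    exact ⟨a, mem_Ioo.2 ⟨a1, a2⟩, a3.symm⟩
  rw [card_eq_sum_card_fiberwise hmap]
  push_cast
  rw [sum_trs C (fun k => ((((ZL i S).filter (fun z => ¬ Disjoint (sit i z) (Tr x i b))).filter
    (fun z => sit i z = k)).card : ℤ)), nb_filter C h hi1 ht hS hno hb hb']
  refine sum_congr rfl fun a ha => ?_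
  rw [mem_Nb] at ha
  have h1 : ((ZL i S).filter (fun z => ¬ Disjoint (sit i z) (Tr x i b))).filter
      (fun z => sit i z = Tr x i a) = (ZL i S).filter (fun z => sit i z = Tr x i a) := by
    ext z
    rw [mem_filter, mem_filter, mem_filter]
    constructor
    · rintro ⟨⟨h1, -⟩, h2⟩
      exact ⟨h1, h2⟩
    · rintro ⟨h1, h2⟩
      refine ⟨⟨h1, ?_⟩, h2⟩
      rw [h2]
      exact (Tr_meet C ha.1.1 ha.1.2 hb hb').2 ha.2
  rw [h1, card_ZL_Tr C h hi1 ht hS hno ha.1.1 ha.1.2]
  rfl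

/-- THE CHARGES WHICH MEET A TRIPLE -/
theorem chg_meet {b : ℕ} (hb : lo i < b) (hb' : b < hi i) :
    ∑ z ∈ (Chs i S).filter (fun z => ¬ Disjoint (sit i z) (Tr x i b)), chg i S z =
      ∑ a ∈ Nb lo hi i b, (1 - (dv x i a : ℤ)) +
        (((FL i S).filter (fun z => ¬ Disjoint (sit i z) (Tr x i b))).card : ℤ) -
          (((FU' i S).filter (fun z => ¬ Disjoint (sit i z) (Tr x i b))).card : ℤ) := by
  classical
  rw [sum_chg h.H (fun z => ¬ Disjoint (sit i z) (Tr x i b)),
    card_ZU_meet C h hi1 ht hS hno hb hb', card_ZL_meet C h hi1 ht hS hno hb hb', sum_sub_distrib]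
  ring

/-- THE SUM OF ALL CHARGES -/
theorem chg_all : ∑ z ∈ Chs i S, chg i S z =
    ∑ a ∈ Ioo (lo i) (hi i), (1 - (dv x i a : ℤ)) + ((FL i S).card : ℤ) -
      ((FU' i S).card : ℤ) := by
  classical
  have h0 := sum_chg (S := S) h.H (i := i) (fun _ => True)
  simp only [filter_true] at h0
  rw [h0]
  have hU : ((ZU i S).card : ℤ) = ∑ _a ∈ Ioo (lo i) (hi i), (1 : ℤ) := by
    have hmap : ∀ z ∈ ZU i S, sit i z ∈ Trs x lo hi i := by
      intro z hz
      obtain ⟨a, a1, a2, a3, -⟩ := ZU_spec C h ht hS hz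
      unfold Trs
      rw [mem_image]
      exact ⟨a, mem_Ioo.2 ⟨a1, a2⟩, a3.symm⟩
    rw [card_eq_sum_card_fiberwise hmap]
    push_cast
    have := sum_trs C (fun k => (((ZU i S).filter (fun z => sit i z = k)).card : ℤ))
      (fun _ => True)
    simp only [filter_true] at this
    rw [this]
    refine sum_congr rfl fun a ha => ?_
    rw [mem_Ioo] at ha
    rw [card_ZU_Tr C h ht hS ha.1 ha.2]
    norm_num
  have hL : ((ZL i S).card : ℤ) = ∑ a ∈ Ioo (lo i) (hi i), (dv x i a : ℤ) := by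
    have hmap : ∀ z ∈ ZL i S, sit i z ∈ Trs x lo hi i := by
      intro z hz
      obtain ⟨a, a1, a2, a3, -⟩ := ZL_spec C h hi1 ht hS hno hz
      unfold Trs
      rw [mem_image]
      exact ⟨a, mem_Ioo.2 ⟨a1, a2⟩, a3.symm⟩
    rw [card_eq_sum_card_fiberwise hmap]
    push_cast
    have := sum_trs C (fun k => (((ZL i S).filter (fun z => sit i z = k)).card : ℤ))
      (fun _ => True)
    simp only [filter_true] at this
    rw [this]
    refine sum_congr rfl fun a ha => ?_
    rw [mem_Ioo] at ha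
    rw [card_ZL_Tr C h hi1 ht hS hno ha.1 ha.2]
    rfl
  rw [hU, hL, sum_sub_distrib]
  ring

/-- sums over the twins -/
theorem sum_tws (f : Finset P → ℤ) :
    ∑ q ∈ Pn.Tws i S, f (sit i q.1) = ∑ b ∈ D2 x lo hi i, f (Tr x i b) := by
  classical
  have hmap : ∀ q ∈ Pn.Tws i S, sit i q.1 ∈ Trs x lo hi i := by
    intro q hq
    obtain ⟨a, a1, a2, a3, -⟩ := ZL_spec C h hi1 ht hS hno (Pn.mem_Tws.1 hq).zl
    unfold Trs
    rw [mem_image]
    exact ⟨a, mem_Ioo.2 ⟨a1, a2⟩, a3.symm⟩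
  rw [← sum_fiberwise_of_maps_to hmap]
  have h2 := sum_trs C (fun k => ∑ q ∈ (Pn.Tws i S).filter (fun q => sit i q.1 = k),
    f (sit i q.1)) (fun _ => True)
  simp only [filter_true] at h2
  rw [h2]
  unfold D2
  rw [sum_filter]
  refine sum_congr rfl fun b hb => ?_
  rw [mem_Ioo] at hb
  have h3 : ∑ q ∈ (Pn.Tws i S).filter (fun q => sit i q.1 = Tr x i b), f (sit i q.1) =
      ((Pn.Tws i S).filter (fun q => sit i q.1 = Tr x i b)).card * f (Tr x i b) := by
    rw [sum_congr rfl (fun q hq => by rw [(mem_filter.1 hq).2]), sum_const, nsmul_eq_mul]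
  rw [h3]
  -- the elements over the centre b
  have hZ := card_ZL_Tr C h hi1 ht hS hno hb.1 hb.2
  have hspec : ∀ z ∈ (ZL i S).filter (fun z => sit i z = Tr x i b),
      uc z = {x (i + 1) b, x (i + 1) (b + 1)} := by
    intro z hz
    rw [mem_filter] at hz
    obtain ⟨a, a1, a2, a3, a4, a5⟩ := ZL_spec C h hi1 ht hS hno hz.1
    have hab : a = b := Tr_inj C (by omega) a1 a2 hb.1 hb.2 (by rw [← a3, hz.2])
    subst hab
    have f1 := C.lo_ge i (by omega)
    have f2 := C.hi_le i (by omega)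
    exact StB_uc_pair h.H a4 a5 (C.inj (i + 1) le_rfl a (a + 1) (by omega) (by omega) (by omega))
  by_cases h4 : dv x i b = 2
  · rw [if_pos h4]
    have h5 : ((ZL i S).filter (fun z => sit i z = Tr x i b)).card = 2 := by rw [hZ]; exact h4
    obtain ⟨z, z', hne, hzz⟩ := card_eq_two.1 h5
    have mz : z ∈ (ZL i S).filter (fun z => sit i z = Tr x i b) := by rw [hzz]; simp
    have mz' : z' ∈ (ZL i S).filter (fun z => sit i z = Tr x i b) := by rw [hzz]; simp
    have hr : Xg.rk z ≠ Xg.rk z' := fun h => hne (Xg.rk_inj h)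
    have key : ∀ a a', a ≠ a' → (ZL i S).filter (fun z => sit i z = Tr x i b) = {a, a'} →
        Xg.rk a' < Xg.rk a →
        (Pn.Tws i S).filter (fun q => sit i q.1 = Tr x i b) = {(a, a')} := by
      intro a a' hn hs hrk
      have ma : a ∈ (ZL i S).filter (fun z => sit i z = Tr x i b) := by rw [hs]; simp
      have ma' : a' ∈ (ZL i S).filter (fun z => sit i z = Tr x i b) := by rw [hs]; simp
      ext q
      rw [mem_filter, Pn.mem_Tws, mem_singleton]
      constructor
      · rintro ⟨T, h6⟩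
        have m1 : q.1 ∈ (ZL i S).filter (fun z => sit i z = Tr x i b) :=
          mem_filter.2 ⟨T.zl, h6⟩
        have l1 := (mem_ZL.1 T.zl).2.1
        have m2 : q.2 ∈ (ZL i S).filter (fun z => sit i z = Tr x i b) := by
          have l2 : lev q.2 = i + 2 := by
            have hc : x (i + 1) b ∈ uc q.1 := by rw [hspec _ m1]; simp
            have e1 := lev_uc h.H hc
            have hc' : x (i + 1) b ∈ uc q.2 := by rw [← T.uc]; exact hc
            have e2 := lev_uc h.H hc'
            omega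
          have hst : sts i q.2 = sts i q.1 := by
            ext v
            rw [mem_sts_iff h.H l2, mem_sts_iff h.H l1, T.uc]
          refine mem_filter.2 ⟨mem_ZL.2 ⟨T.mC, l2, ?_⟩, ?_⟩
          · rw [← card_sts, hst, card_sts]
            exact (mem_ZL.1 T.zl).2.2
          · rw [sit_low h.H (by omega), hst, ← sit_low h.H (by omega : i ≤ lev q.1)]
            exact h6
        rw [hs, mem_insert, mem_singleton] at m1 m2
        have hqn := T.ne
        rcases m1 with m1 | m1 <;> rcases m2 with m2 | m2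
        · exact absurd (m1.trans m2.symm) hqn
        · exact Prod.ext m1 m2
        · exfalso
          have := T.rk
          rw [m1, m2] at this
          omega
        · exact absurd (m1.trans m2.symm) hqn
      · rintro rfl
        exact ⟨⟨(mem_filter.1 ma).1, (mem_ZL.1 (mem_filter.1 ma').1).1, hn,
          by rw [hspec _ ma, hspec _ ma'], hrk⟩, (mem_filter.1 ma).2⟩
    rcases Nat.lt_or_gt_of_ne hr with h6 | h6
    · rw [key z' z hne.symm (by rw [hzz, pair_comm]) h6, card_singleton]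
      norm_num
    · rw [key z z' hne hzz h6, card_singleton]
      norm_num
  · rw [if_neg h4]
    have h5 : ((Pn.Tws i S).filter (fun q => sit i q.1 = Tr x i b)) = ∅ := by
      rw [eq_empty_iff_forall_notMem]
      intro q hq
      rw [mem_filter, Pn.mem_Tws] at hq
      obtain ⟨T, h6⟩ := hq
      apply h4
      have m1 : q.1 ∈ (ZL i S).filter (fun z => sit i z = Tr x i b) :=
        mem_filter.2 ⟨T.zl, h6⟩
      have e1 : q.1 ⋖ x (i + 1) b := mem_uc.1 (by rw [hspec _ m1]; simp)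
      have e2 : q.1 ⋖ x (i + 1) (b + 1) := mem_uc.1 (by rw [hspec _ m1]; simp)
      have e3 : q.2 ⋖ x (i + 1) b := mem_uc.1 (by rw [← T.uc, hspec _ m1]; simp)
      have e4 : q.2 ⋖ x (i + 1) (b + 1) := mem_uc.1 (by rw [← T.uc, hspec _ m1]; simp)
      unfold dv dcv
      have hle : (univ.filter (fun z => z ⋖ x (i + 1) b ∧ z ⋖ x (i + 1) (b + 1))).card ≤ 2 := by
        refine (card_le_card ?_).trans (dc_card_le h.H (x (i + 1) b))
        intro z hz
        rw [mem_filter] at hz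
        exact mem_dc.2 hz.2.1
      have hge : 2 ≤ (univ.filter (fun z => z ⋖ x (i + 1) b ∧ z ⋖ x (i + 1) (b + 1))).card := by
        rw [← card_pair T.ne]
        apply card_le_card
        intro z hz
        rw [mem_insert, mem_singleton] at hz
        rw [mem_filter]
        rcases hz with rfl | rfl
        · exact ⟨mem_univ _, e1, e2⟩
        · exact ⟨mem_univ _, e3, e4⟩
      omega
    rw [h5, card_empty]
    norm_num

end row

end Pool.Agent.GaussPoset.Win.Rc
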