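import Pool.Agent.W_448rc_h10.RcA

/-!
MP_448cb3_co, G2, case B, window `j - 1`: the coefficients (3,1), (5,2), (8,3), (10,4) of a
component with at least four sites in the coordinates of its row.  helper10.
-/

namespace Pool.Agent.GaussPoset.Win.Rc

set_option linter.unusedSectionVars false

open Finset

section pairs

variable {α : Type*} [DecidableEq α]

/-- unordered and ordered pairs -/
lemma two_pairs (s : Finset α) (R : α → α → Prop) [DecidableRel R] (hR : ∀ a b, R a b → R b a)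
    [DecidablePred fun u : Finset α => ∀ a ∈ u, ∀ b ∈ u, a ≠ b → R a b] :
    2 * ((s.powersetCard 2).filter (fun u => ∀ a ∈ u, ∀ b ∈ u, a ≠ b → R a b)).card =
      ((s ×ˢ s).filter (fun q => q.1 ≠ q.2 ∧ R q.1 q.2)).card := by
  have hmap : ∀ q ∈ (s ×ˢ s).filter (fun q => q.1 ≠ q.2 ∧ R q.1 q.2),
      ({q.1, q.2} : Finset α) ∈
        (s.powersetCard 2).filter (fun u => ∀ a ∈ u, ∀ b ∈ u, a ≠ b → R a b) := by
    intro q hq
    rw [mem_filter, mem_product] at hq
    obtain ⟨⟨h1, h2⟩, h3, h4⟩ := hq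
    rw [mem_filter, mem_powersetCard]
    refine ⟨⟨?_, card_pair h3⟩, ?_⟩
    · intro a ha
      rw [mem_insert, mem_singleton] at ha
      rcases ha with rfl | rfl
      · exact h1
      · exact h2
    · intro a ha b hb hab
      rw [mem_insert, mem_singleton] at ha hb
      rcases ha with rfl | rfl <;> rcases hb with rfl | rfl
      · exact absurd rfl hab
      · exact h4
      · exact hR _ _ h4
      · exact absurd rfl hab
  rw [card_eq_sum_card_fiberwise hmap, mul_comm, ← smul_eq_mul, ← sum_const]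
  symm
  refine sum_congr rfl fun u hu => ?_
  rw [mem_filter, mem_powersetCard] at hu
  obtain ⟨⟨h1, h2⟩, h3⟩ := hu
  obtain ⟨a, b, hab, rfl⟩ := card_eq_two.1 h2
  have h4 : ((s ×ˢ s).filter (fun q => q.1 ≠ q.2 ∧ R q.1 q.2)).filter
      (fun q => ({q.1, q.2} : Finset α) = {a, b}) = {(a, b), (b, a)} := by
    ext q
    rw [mem_filter, mem_filter, mem_product, mem_insert, mem_singleton]
    constructor
    · rintro ⟨⟨-, h5, -⟩, h6⟩
      have m1 : q.1 ∈ ({a, b} : Finset α) := by rw [← h6]; simp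
      have m2 : q.2 ∈ ({a, b} : Finset α) := by rw [← h6]; simp
      rw [mem_insert, mem_singleton] at m1 m2
      rcases m1 with m1 | m1 <;> rcases m2 with m2 | m2
      · exact absurd (m1.trans m2.symm) h5
      · exact Or.inl (Prod.ext m1 m2)
      · exact Or.inr (Prod.ext m1 m2)
      · exact absurd (m1.trans m2.symm) h5
    · have ma : a ∈ s := h1 (by simp)
      have mb : b ∈ s := h1 (by simp)
      rintro (rfl | rfl)
      · exact ⟨⟨⟨ma, mb⟩, hab, h3 a (by simp) b (by simp) hab⟩, rfl⟩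
      · exact ⟨⟨⟨mb, ma⟩, hab.symm, h3 b (by simp) a (by simp) hab.symm⟩, pair_comm _ _⟩
  rw [h4, card_pair]
  intro h5
  exact hab (congrArg Prod.fst h5)

end pairs

universe u

variable {P : Type u} [Fintype P] [PartialOrder P] [DecidableEq P] {r i j : ℕ} {t : P}
  {lo hi : ℕ → ℕ} {x : ℕ → ℕ → P} {S : Finset P}

/-- centres of twins near `b` -/
noncomputable def D2n (x : ℕ → ℕ → P) (lo hi : ℕ → ℕ) (i b : ℕ) : Finset ℕ :=
  (D2 x lo hi i).filter (fun a => a ≤ b + 2 ∧ b ≤ a + 2)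

section row

variable (C : Comp P t (i + 1) lo hi x) (h : GoodTo P r (i + 1)) (hi1 : 1 ≤ i) (ht : lev t = 0)
  (hS : ∀ y, lev y ≤ i + 2 → (y ∈ S ↔ y ≤ t)) (hno : ∀ z : P, lev z = i + 2 → ¬ Hul.Jn z)
include C h hi1 ht hS hno

lemma card_tws : ((Pn.Tws i S).card : ℤ) = (D2 x lo hi i).card := by
  have := sum_tws C h hi1 ht hS hno (fun _ => (1 : ℤ))
  simpa using this

theorem prs_row : ((Pn.Tws i S).card : ℤ) ^ 2 - 2 * ((Rd.PrS i S).card : ℤ) =
    ∑ b ∈ D2 x lo hi i, ((D2n x lo hi i b).card : ℤ) := by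
  classical
  have h1 := two_pairs (Pn.Tws i S) (fun q q' => Disjoint (sit i q.1) (sit i q'.1))
    (fun _ _ h => h.symm)
  have h2 : ((Rd.PrS i S).card : ℤ) * 2 = (((Pn.Tws i S ×ˢ Pn.Tws i S).filter
      (fun q => q.1 ≠ q.2 ∧ Disjoint (sit i q.1.1) (sit i q.2.1))).card : ℤ) := by
    rw [← h1]
    push_cast
    unfold Rd.PrS
    rw [mul_comm]
  have hne : ∀ q ∈ Pn.Tws i S, ¬ Disjoint (sit i q.1) (sit i q.1) := by
    intro q hq
    obtain ⟨a, a1, a2, a3, -⟩ := ZL_spec C h hi1 ht hS hno (Pn.mem_Tws.1 hq).zl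
    rw [a3]
    exact (Tr_meet C a1 a2 a1 a2).2 (by omega)
  have h3 : (Pn.Tws i S ×ˢ Pn.Tws i S).filter
      (fun q => q.1 ≠ q.2 ∧ Disjoint (sit i q.1.1) (sit i q.2.1)) =
      (Pn.Tws i S ×ˢ Pn.Tws i S).filter (fun q => Disjoint (sit i q.1.1) (sit i q.2.1)) := by
    apply filter_congr
    intro q hq
    rw [mem_product] at hq
    constructor
    · exact fun h => h.2
    · intro hd
      refine ⟨?_, hd⟩
      intro he
      rw [he] at hd
      exact hne _ hq.2 hd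
  have h4 : (((Pn.Tws i S ×ˢ Pn.Tws i S).filter
      (fun q => Disjoint (sit i q.1.1) (sit i q.2.1))).card : ℤ) =
      ((Pn.Tws i S).card : ℤ) ^ 2 - (((Pn.Tws i S ×ˢ Pn.Tws i S).filter
      (fun q => ¬ Disjoint (sit i q.1.1) (sit i q.2.1))).card : ℤ) := by
    have := card_filter_add_card_filter_not (s := Pn.Tws i S ×ˢ Pn.Tws i S)
      (fun q => Disjoint (sit i q.1.1) (sit i q.2.1))
    rw [card_product] at this
    have h5 : ((Pn.Tws i S).card : ℤ) ^ 2 = (((Pn.Tws i S).card * (Pn.Tws i S).card : ℕ) : ℤ) := by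
      push_cast
      ring
    rw [h5, ← this]
    push_cast
    ring
  have h5 : (((Pn.Tws i S ×ˢ Pn.Tws i S).filter
      (fun q => ¬ Disjoint (sit i q.1.1) (sit i q.2.1))).card : ℤ) =
      ∑ b ∈ D2 x lo hi i, ((D2n x lo hi i b).card : ℤ) := by
    rw [card_filter]
    push_cast
    rw [sum_product]
    have h6 : ∀ q ∈ Pn.Tws i S, ∑ q' ∈ Pn.Tws i S,
        (if ¬ Disjoint (sit i q.1) (sit i q'.1) then (1 : ℤ) else 0) =
        ∑ b ∈ D2 x lo hi i, (if ¬ Disjoint (sit i q.1) (Tr x i b) then (1 : ℤ) else 0) :=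
      fun q _ => sum_tws C h hi1 ht hS hno
        (fun k => if ¬ Disjoint (sit i q.1) k then (1 : ℤ) else 0)
    rw [sum_congr rfl h6, sum_tws C h hi1 ht hS hno (fun k => ∑ b ∈ D2 x lo hi i,
      (if ¬ Disjoint k (Tr x i b) then (1 : ℤ) else 0))]
    refine sum_congr rfl fun b hb => ?_
    unfold D2n
    rw [card_filter]
    push_cast
    refine sum_congr rfl fun a ha => ?_
    rw [mem_D2] at ha hb
    have := Tr_meet C hb.1.1 hb.1.2 ha.1.1 ha.1.2
    by_cases h7 : a ≤ b + 2 ∧ b ≤ a + 2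
    · rw [if_pos h7, if_pos (this.2 ⟨h7.2, h7.1⟩)]
    · rw [if_neg h7, if_neg (fun h8 => h7 ⟨(this.1 h8).2, (this.1 h8).1⟩)]
  rw [h3, h4, h5] at h2
  linarith

end row

end Pool.Agent.GaussPoset.Win.Rc

namespace Pool.Agent.GaussPoset.Wd

open Finset Win Win.I2 Win.Rc

universe u

variable {P : Type u} [Fintype P] [PartialOrder P] [DecidableEq P] {r j i : ℕ}
  {t : Tops P} {lo hi : ℕ → ℕ} {e : ℕ → ℕ → P}

variable (h : NJ P r j) (hij : i + 1 = j) (hi1 : 1 ≤ i) (C : Cp.Comp j (t : P) lo hi e)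
  (h4 : lo i + 3 ≤ hi i)
include h hij hi1 C h4

open Classical in
/-- THE COEFFICIENTS OF A COMPONENT WITH AT LEAST FOUR SITES IN THE COORDINATES OF ITS ROW:
`dv e i a` joins lie over the centre `a`, twins at the centres `D2` -/
theorem NJ.row4 :
    T8.cg 3 (st i (SS i t)).card (ZS i (SS i t)) = ∑ a ∈ Ioo (lo i) (hi i), (1 - (dv e i a : ℤ)) +
      ((FL i (SS i t)).card : ℤ) - ((FU' i (SS i t)).card : ℤ) ∧
    T8.cg 5 (st i (SS i t)).card (ZS i (SS i t)) = - ((D2 e lo hi i).card : ℤ) ∧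
    T8.Q8 (st i (SS i t)).card (ZS i (SS i t)) = ((Rd.ETs i (SS i t)).card : ℤ) -
      ∑ b ∈ D2 e lo hi i, (∑ a ∈ Nb lo hi i b, (1 - (dv e i a : ℤ)) +
        (((FL i (SS i t)).filter (fun z => ¬ Disjoint (sit i z) (Tr e i b))).card : ℤ) -
        (((FU' i (SS i t)).filter (fun z => ¬ Disjoint (sit i z) (Tr e i b))).card : ℤ)) ∧
    T8.Q10 (st i (SS i t)).card (ZS i (SS i t)) =
      ∑ b ∈ D2 e lo hi i, ((D2n e lo hi i b).card : ℤ) - 2 * ((Rd.NfC i (SS i t)).card : ℤ) := by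
  obtain ⟨-, v3, v5, v8, v10⟩ := h.vals4 hij hi1 C h4
  subst hij
  have W := C.toWin
  have hS : ∀ y, lev y ≤ i + 2 → (y ∈ SS i t ↔ y ≤ (t : P)) :=
    fun y hy => h.mem (i := i) (by omega) t (by omega)
  have hno : ∀ z : P, lev z = i + 2 → ¬ Hul.Jn z := fun z hz => h.no z (by omega)
  refine ⟨?_, ?_, ?_, ?_⟩
  · rw [v3, chg_all W h.g hi1 t.2 hS hno]
  · rw [v5, card_tws W h.g hi1 t.2 hS hno]
  · rw [v8]
    congr 1
    rw [sum_tws W h.g hi1 t.2 hS hno (fun k => ∑ z ∈ (Chs i (SS i t)).filter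
        (fun z => ¬ Disjoint (sit i z) k), chg i (SS i t) z)]
    refine sum_congr rfl fun b hb => ?_
    rw [mem_D2] at hb
    exact chg_meet W h.g hi1 t.2 hS hno hb.1.1 hb.1.2
  · rw [v10, ← prs_row W h.g hi1 t.2 hS hno]

end Pool.Agent.GaussPoset.Wd
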