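import Pool.Agent.W_448rc_h10.RcB
import Pool.Agent.W_448kf_h15.KfJ

/-!
MP_448cb3_co, G2, case B, window `j - 1`: the coefficients (3,1), (5,2), (8,3), (10,4) of a
component with at least four sites in terms of the pattern `c` of its row.  helper10.
-/

namespace Pool.Agent.GaussPoset.Wd

set_option linter.unusedSectionVars false

open Finset Win Win.I2 Win.Rc EK

universe u

variable {P : Type u} [Fintype P] [PartialOrder P] [DecidableEq P] {r j i : ℕ}
  {t : Tops P} {lo hi : ℕ → ℕ} {e : ℕ → ℕ → P} {m : ℕ} {x : ℕ → P} {c : ℕ → ℤ} {β : ℤ}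

/-- the edges of the row between two double elements -/
noncomputable def Ed (x : ℕ → P) (m : ℕ) : Finset ℕ :=
  (range m).filter (fun k => (uc (x k)).card = 2 ∧ (uc (x (k + 1))).card = 2)

lemma mem_Ed {k : ℕ} : k ∈ Ed x m ↔ k < m ∧ (uc (x k)).card = 2 ∧ (uc (x (k + 1))).card = 2 := by
  unfold Ed
  rw [mem_filter, mem_range]

/-- the edges with twins -/
noncomputable def Et (x : ℕ → P) (m : ℕ) (c : ℕ → ℤ) : Finset ℕ := (Ed x m).filter (fun k => c k = 1)

lemma mem_Et {k : ℕ} : k ∈ Et x m c ↔ k ∈ Ed x m ∧ c k = 1 := by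
  unfold Et
  rw [mem_filter]

/-- the sites of an edge -/
noncomputable def se (x : ℕ → P) (k : ℕ) : Finset P := uc (x k) ∪ uc (x (k + 1))

/-- the numbering of the edges by the centres -/
structure Ori (i : ℕ) (lo hi : ℕ → ℕ) (e : ℕ → ℕ → P) (x : ℕ → P) (m : ℕ) (c : ℕ → ℤ)
    (ρ : ℕ → ℕ) : Prop where
  mem : ∀ k, k < m → (k ∈ Ed x m ↔ ρ k ∈ Ioo (lo i) (hi i))
  inj : ∀ k l, k < m → l < m → ρ k = ρ l → k = l
  surj : ∀ a ∈ Ioo (lo i) (hi i), ∃ k, k < m ∧ ρ k = a
  dist : ∀ k l, k < m → l < m → ((ρ k ≤ ρ l + 2 ∧ ρ l ≤ ρ k + 2) ↔ (k ≤ l + 2 ∧ l ≤ k + 2))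
  dv : ∀ k, k < m → (dv e i (ρ k) : ℤ) = 1 + c k
  tr : ∀ k, k ∈ Ed x m → Tr e i (ρ k) = se x k

section ori

variable {ρ : ℕ → ℕ} (O : Ori i lo hi e x m c ρ)
include O

lemma Ori.sum (f : ℕ → ℤ) (R : ℕ → Prop) [DecidablePred R] :
    ∑ a ∈ (Ioo (lo i) (hi i)).filter R, f a =
      ∑ k ∈ (Ed x m).filter (fun k => R (ρ k)), f (ρ k) := by
  classical
  have h1 : (Ioo (lo i) (hi i)).filter R = ((Ed x m).filter (fun k => R (ρ k))).image ρ := by
    ext a
    rw [mem_filter, mem_image]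
    constructor
    · rintro ⟨h2, h3⟩
      obtain ⟨k, hk, rfl⟩ := O.surj a h2
      exact ⟨k, mem_filter.2 ⟨(O.mem k hk).2 h2, h3⟩, rfl⟩
    · rintro ⟨k, hk, rfl⟩
      rw [mem_filter] at hk
      exact ⟨(O.mem k (mem_Ed.1 hk.1).1).1 hk.1, hk.2⟩
  rw [h1, sum_image]
  intro k hk l hl hkl
  rw [mem_coe, mem_filter, mem_Ed] at hk hl
  exact O.inj k l hk.1.1 hl.1.1 hkl

lemma Ori.sum_D2 (f : ℕ → ℤ) : ∑ b ∈ D2 e lo hi i, f b = ∑ k ∈ Et x m c, f (ρ k) := by
  unfold D2 Et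
  rw [O.sum f]
  refine sum_congr ?_ (fun _ _ => rfl)
  apply filter_congr
  intro k hk
  have := O.dv k (mem_Ed.1 hk).1
  constructor
  · intro h
    rw [h] at this
    push_cast at this
    linarith
  · intro h
    rw [h] at this
    have h2 : (Rc.dv e i (ρ k) : ℤ) = (2 : ℕ) := by rw [this]; norm_num
    exact_mod_cast h2

lemma Ori.card_D2 : ((D2 e lo hi i).card : ℤ) = (Et x m c).card := by
  have := O.sum_D2 (fun _ => (1 : ℤ))
  simpa using this

/-- edges near `k` -/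
lemma Ori.sum_Nb {k : ℕ} (hk : k ∈ Ed x m) :
    ∑ a ∈ Nb lo hi i (ρ k), (1 - (Rc.dv e i a : ℤ)) =
      - ∑ l ∈ (Ed x m).filter (fun l => l ≤ k + 2 ∧ k ≤ l + 2), c l := by
  unfold Nb
  rw [O.sum (fun a => (1 - (Rc.dv e i a : ℤ))), ← sum_neg_distrib]
  have h1 : (Ed x m).filter (fun l => ρ l ≤ ρ k + 2 ∧ ρ k ≤ ρ l + 2) =
      (Ed x m).filter (fun l => l ≤ k + 2 ∧ k ≤ l + 2) := by
    apply filter_congr
    intro l hl
    exact O.dist l k (mem_Ed.1 hl).1 (mem_Ed.1 hk).1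
  rw [h1]
  refine sum_congr rfl fun l hl => ?_
  rw [O.dv l (mem_Ed.1 (mem_filter.1 hl).1).1]
  ring

lemma Ori.sum_all : ∑ a ∈ Ioo (lo i) (hi i), (1 - (Rc.dv e i a : ℤ)) =
    - ∑ l ∈ Ed x m, c l := by
  have := O.sum (fun a => (1 - (Rc.dv e i a : ℤ))) (fun _ => True)
  simp only [filter_true] at this
  rw [this, ← sum_neg_distrib]
  refine sum_congr rfl fun l hl => ?_
  rw [O.dv l (mem_Ed.1 hl).1]
  ring

lemma Ori.card_D2n {k : ℕ} (hk : k ∈ Ed x m) : ((D2n e lo hi i (ρ k)).card : ℤ) =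
    ((Et x m c).filter (fun l => l ≤ k + 2 ∧ k ≤ l + 2)).card := by
  classical
  unfold D2n
  rw [card_filter, card_filter]
  push_cast
  rw [O.sum_D2 (fun a => if a ≤ ρ k + 2 ∧ ρ k ≤ a + 2 then (1 : ℤ) else 0)]
  refine sum_congr rfl fun l hl => ?_
  have h1 := O.dist l k (mem_Ed.1 (mem_Et.1 hl).1).1 (mem_Ed.1 hk).1
  by_cases h2 : l ≤ k + 2 ∧ k ≤ l + 2
  · rw [if_pos h2, if_pos (h1.2 h2)]
  · rw [if_neg h2, if_neg (fun h3 => h2 (h1.1 h3))]

end ori

section row

variable (h : NJ P r j) (hij : i + 1 = j) (hi1 : 1 ≤ i) (B : RowB P j t m x c β)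
include h hij hi1 B

omit h hij hi1 B in
lemma dcv_sym (a b : P) : dcv a b = dcv b a := by
  classical
  unfold dcv
  congr 1
  ext z
  simp only [mem_filter, mem_univ, true_and]
  tauto

/-- the edges of a row are numbered by the centres -/
theorem NJ.ori (C : Cp.Comp j (t : P) lo hi e) : ∃ ρ, Ori i lo hi e x m c ρ := by
  subst hij
  obtain ⟨hm, hor⟩ := B.orient h (by omega) C
  have W := C.toWin
  have l1 := C.lo_step i (by omega)
  have l2 := C.hi_step i (by omega)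
  have hlh := C.lo_le (i + 1) le_rfl
  have two : ∀ a, lo (i + 1) ≤ a → a ≤ hi (i + 1) →
      ((uc (e (i + 1) a)).card = 2 ↔ lo i < a ∧ a ≤ hi i) :=
    fun a h1 h2 => W.uc_two h.g t.2 (k := i) (by omega) h1 h2
  have ueq : ∀ a, lo i < a → a ≤ hi i → uc (e (i + 1) a) = {e i (a - 1), e i a} :=
    fun a h1 h2 => W.uc_eq h.g t.2 (k := i) (by omega) h1 h2
  have tre : ∀ a, lo i < a → a < hi i → uc (e (i + 1) a) ∪ uc (e (i + 1) (a + 1)) = Tr e i a := by
    intro a h1 h2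
    rw [ueq a h1 h2.le, ueq (a + 1) (by omega) (by omega), Nat.add_sub_cancel]
    unfold Tr
    ext v
    simp only [mem_union, mem_insert, mem_singleton]
    tauto
  have hdf : ∀ k, k < m → (dcv (x k) (x (k + 1)) : ℤ) = 1 + c k := by
    intro k hk
    have h1 := B.row.df k (k + 1) (by omega) (by omega)
    rw [if_pos rfl] at h1
    have hne : x k ≠ x (k + 1) := by
      intro h2
      have := B.row.inj k (k + 1) (by omega) (by omega) h2
      omega
    rw [Df_pair h.g.H (B.row.lev_x k (by omega)) hne, B.ucv_x k (k + 1) (by omega) (by omega),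
      if_pos rfl] at h1
    push_cast at h1
    linarith
  rcases hor with hx | hx
  · refine ⟨fun k => lo (i + 1) + k, ?_, ?_, ?_, ?_, ?_, ?_⟩
    · intro k hk
      rw [mem_Ed, mem_Ioo, hx k hk.le, hx (k + 1) (by omega), two _ (by omega) (by omega),
        two _ (by omega) (by omega)]
      constructor
      · rintro ⟨-, h1, h2⟩
        exact ⟨h1.1, by omega⟩
      · rintro ⟨h1, h2⟩
        exact ⟨hk, ⟨h1, by omega⟩, by omega, by omega⟩
    · intro k l _ _ hkl
      have hkl' : lo (i + 1) + k = lo (i + 1) + l := hkl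
      omega
    · intro a ha
      rw [mem_Ioo] at ha
      exact ⟨a - lo (i + 1), by omega, by show lo (i + 1) + (a - lo (i + 1)) = a; omega⟩
    · intro k l _ _
      show (lo (i + 1) + k ≤ lo (i + 1) + l + 2 ∧ lo (i + 1) + l ≤ lo (i + 1) + k + 2) ↔ _
      omega
    · intro k hk
      unfold Rc.dv
      rw [← hdf k hk, hx k hk.le, hx (k + 1) (by omega), ← add_assoc]
    · intro k hk
      have h1 := mem_Ed.1 hk
      rw [hx k h1.1.le, hx (k + 1) (by omega), two _ (by omega) (by omega),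
        two _ (by omega) (by omega)] at h1
      unfold se
      rw [hx k h1.1.le, hx (k + 1) (by omega), ← add_assoc]
      exact (tre _ (by omega) (by omega)).symm
  · refine ⟨fun k => hi (i + 1) - 1 - k, ?_, ?_, ?_, ?_, ?_, ?_⟩
    · intro k hk
      rw [mem_Ed, mem_Ioo, hx k hk.le, hx (k + 1) (by omega), two _ (by omega) (by omega),
        two _ (by omega) (by omega)]
      constructor
      · rintro ⟨-, h1, h2⟩
        exact ⟨by omega, by omega⟩
      · rintro ⟨h1, h2⟩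
        exact ⟨hk, ⟨by omega, by omega⟩, by omega, by omega⟩
    · intro k l hk hl hkl
      have hkl' : hi (i + 1) - 1 - k = hi (i + 1) - 1 - l := hkl
      omega
    · intro a ha
      rw [mem_Ioo] at ha
      exact ⟨hi (i + 1) - 1 - a, by omega, by
        show hi (i + 1) - 1 - (hi (i + 1) - 1 - a) = a
        omega⟩
    · intro k l hk hl
      show (hi (i + 1) - 1 - k ≤ hi (i + 1) - 1 - l + 2 ∧
        hi (i + 1) - 1 - l ≤ hi (i + 1) - 1 - k + 2) ↔ _
      omega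
    · intro k hk
      unfold Rc.dv
      rw [← hdf k hk, hx k hk.le, hx (k + 1) (by omega),
        show hi (i + 1) - 1 - k + 1 = hi (i + 1) - k by omega,
        show hi (i + 1) - (k + 1) = hi (i + 1) - 1 - k by omega, dcv_sym]
    · intro k hk
      have h1 := mem_Ed.1 hk
      rw [hx k h1.1.le, hx (k + 1) (by omega), two _ (by omega) (by omega),
        two _ (by omega) (by omega)] at h1
      unfold se
      rw [hx k h1.1.le, hx (k + 1) (by omega),
        show hi (i + 1) - (k + 1) = hi (i + 1) - 1 - k by omega,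
        show hi (i + 1) - k = hi (i + 1) - 1 - k + 1 by omega, union_comm]
      exact (tre _ (by omega) (by omega)).symm

open Classical in
/-- THE COEFFICIENTS OF A COMPONENT WITH AT LEAST FOUR SITES IN TERMS OF THE PATTERN OF ITS ROW -/
theorem NJ.rowc (h4 : 4 ≤ (st i (SS i t)).card) :
    T8.cg 3 (st i (SS i t)).card (ZS i (SS i t)) = - ∑ k ∈ Ed x m, c k +
      ((FL i (SS i t)).card : ℤ) - ((FU' i (SS i t)).card : ℤ) ∧
    T8.cg 5 (st i (SS i t)).card (ZS i (SS i t)) = - ((Et x m c).card : ℤ) ∧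
    T8.Q8 (st i (SS i t)).card (ZS i (SS i t)) = ((Rd.ETs i (SS i t)).card : ℤ) +
      ∑ k ∈ Et x m c, (∑ l ∈ (Ed x m).filter (fun l => l ≤ k + 2 ∧ k ≤ l + 2), c l -
        (((FL i (SS i t)).filter (fun z => ¬ Disjoint (sit i z) (se x k))).card : ℤ) +
        (((FU' i (SS i t)).filter (fun z => ¬ Disjoint (sit i z) (se x k))).card : ℤ)) ∧
    T8.Q10 (st i (SS i t)).card (ZS i (SS i t)) =
      ∑ k ∈ Et x m c, (((Et x m c).filter (fun l => l ≤ k + 2 ∧ k ≤ l + 2)).card : ℤ) -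
        2 * ((Rd.NfC i (SS i t)).card : ℤ) := by
  obtain ⟨lo, hi, e, C⟩ := Cp.comp_exists h.g.H t.2 h.g.hr h.g.good
  have hb : lo i + 3 ≤ hi i := by
    rw [h.card_SS (i := i) (by omega) C] at h4
    omega
  obtain ⟨ρ, O⟩ := h.ori hij hi1 B C
  obtain ⟨v3, v5, v8, v10⟩ := h.row4 hij hi1 C hb
  refine ⟨?_, ?_, ?_, ?_⟩
  · rw [v3, O.sum_all]
  · rw [v5, O.card_D2]
  · rw [v8, O.sum_D2 (fun b => ∑ a ∈ Nb lo hi i b, (1 - (Rc.dv e i a : ℤ)) +
        (((FL i (SS i t)).filter (fun z => ¬ Disjoint (sit i z) (Tr e i b))).card : ℤ) -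
        (((FU' i (SS i t)).filter (fun z => ¬ Disjoint (sit i z) (Tr e i b))).card : ℤ)),
      sub_eq_add_neg, ← sum_neg_distrib]
    congr 1
    refine sum_congr rfl fun k hk => ?_
    have hk' := (mem_Et.1 hk).1
    rw [O.sum_Nb hk', O.tr k hk']
    ring
  · rw [v10, O.sum_D2 (fun b => ((D2n e lo hi i b).card : ℤ))]
    congr 1
    exact sum_congr rfl fun k hk => O.card_D2n (mem_Et.1 hk).1

end row

end Pool.Agent.GaussPoset.Wd
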