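import Pool.Agent.W_448rc_h10.RcC

/-!
MP_448cb3_co, G2, case B, window `j - 1`: the coefficients (3,1), (5,2), (8,3), (10,4) of the rows
of case B with at least four sites.  helper10.
-/

namespace Pool.Agent.GaussPoset.Wd

set_option linter.unusedSectionVars false

open Finset Win Win.I2 Win.Rc EK

universe u

variable {P : Type u} [Fintype P] [PartialOrder P] [DecidableEq P] {r j i : ℕ}
  {t : Tops P} {lo hi : ℕ → ℕ} {e : ℕ → ℕ → P} {m : ℕ} {x : ℕ → P} {c : ℕ → ℤ} {β : ℤ}

/-- the private children of the pendants minus those above, over the edge `k` -/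
noncomputable def fm (i : ℕ) (S : Finset P) (x : ℕ → P) (k : ℕ) : ℤ := by
  classical exact
  (((FL i S).filter (fun z => ¬ Disjoint (sit i z) (se x k))).card : ℤ) -
    (((FU' i S).filter (fun z => ¬ Disjoint (sit i z) (se x k))).card : ℤ)

/-- the private children of the pendants minus those above -/
noncomputable def fa (i : ℕ) (S : Finset P) : ℤ := ((FL i S).card : ℤ) - ((FU' i S).card : ℤ)

/-- the values of a part: A3, B5, Q8, Q10 -/
structure Vals (i : ℕ) (S : Finset P) (a b q8 q10 : ℤ) : Prop where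
  a3 : T8.cg 3 (st i S).card (ZS i S) = a
  b5 : T8.cg 5 (st i S).card (ZS i S) = b
  q8 : T8.Q8 (st i S).card (ZS i S) = q8
  q10 : T8.Q10 (st i S).card (ZS i S) = q10

section row

variable (h : NJ P r j) (hij : i + 1 = j) (hi1 : 1 ≤ i) (B : RowB P j t m x c β)
include h hij hi1 B

/-- inner elements are double; the number of sites -/
theorem NJ.inner : (∀ k, 0 < k → k < m → (uc (x k)).card = 2) ∧
    (1 ≤ m → (st i (SS i t)).card = m + ((uc (x 0)).card - 1) + ((uc (x m)).card - 1)) ∧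
    (∀ k, k ≤ m → (uc (x k)).card = 1 ∨ (uc (x k)).card = 2) := by
  subst hij
  obtain ⟨lo, hi, e, C⟩ := Cp.comp_exists h.g.H t.2 h.g.hr h.g.good
  obtain ⟨hm, hor⟩ := B.orient h (by omega) C
  have W := C.toWin
  have l1 : lo (i + 1) = lo i ∨ lo (i + 1) = lo i + 1 := C.lo_step i (by omega)
  have l2 : hi (i + 1) = hi i ∨ hi (i + 1) = hi i + 1 := C.hi_step i (by omega)
  have l3 := C.lo_le i (by omega)
  have two : ∀ a, lo (i + 1) ≤ a → a ≤ hi (i + 1) →
      ((uc (e (i + 1) a)).card = 2 ↔ lo i < a ∧ a ≤ hi i) :=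
    fun a h1 h2 => W.uc_two h.g t.2 (k := i) (by omega) h1 h2
  have one : ∀ a, lo (i + 1) ≤ a → a ≤ hi (i + 1) →
      ((uc (e (i + 1) a)).card = 1 ∨ (uc (e (i + 1) a)).card = 2) := by
    intro a h1 h2
    have h5 := C.lev_e (i + 1) a le_rfl h1 h2
    exact uc_card_cases h.g.H (x := e (i + 1) a) (by omega)
  have hV : (st i (SS i t)).card = hi i + 1 - lo i := h.card_SS (i := i) (by omega) C
  rcases hor with hx | hx
  · refine ⟨?_, ?_, ?_⟩
    · intro k h1 h2
      rw [hx k h2.le, two _ (by omega) (by omega)]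
      omega
    · intro hm1
      rw [hV, hx 0 (by omega), hx m le_rfl, add_zero]
      have a1 := two (lo (i + 1)) le_rfl (by omega)
      have a2 := two (lo (i + 1) + m) (by omega) (by omega)
      have b1 := one (lo (i + 1)) le_rfl (by omega)
      have b2 := one (lo (i + 1) + m) (by omega) (by omega)
      omega
    · intro k hk
      rw [hx k hk]
      exact one _ (by omega) (by omega)
  · refine ⟨?_, ?_, ?_⟩
    · intro k h1 h2
      rw [hx k h2.le, two _ (by omega) (by omega)]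
      omega
    · intro hm1
      rw [hV, hx 0 (by omega), hx m le_rfl, Nat.sub_zero]
      have a1 := two (hi (i + 1)) (by omega) le_rfl
      have a2 := two (hi (i + 1) - m) (by omega) (by omega)
      have b1 := one (hi (i + 1)) (by omega) le_rfl
      have b2 := one (hi (i + 1) - m) (by omega) (by omega)
      omega
    · intro k hk
      rw [hx k hk]
      exact one _ (by omega) (by omega)

/-- no twins: no (8,3) term -/
theorem NJ.vals0 (h4 : 4 ≤ (st i (SS i t)).card) (h0 : Et x m c = ∅) :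
    Vals i (SS i t) (- ∑ k ∈ Ed x m, c k + fa i (SS i t)) 0 0
      (- 2 * ((Rd.NfC i (SS i t)).card : ℤ)) := by
  obtain ⟨v3, v5, v8, v10⟩ := h.rowc hij hi1 B h4
  rw [h0] at v5 v8 v10
  rw [card_empty] at v5
  rw [sum_empty] at v8 v10
  have hE : Rd.ETs i (SS i t) = ∅ := by
    rw [eq_empty_iff_forall_notMem]
    intro s hs
    rw [Rd.mem_ETs] at hs
    obtain ⟨p0, y0, S⟩ := hs
    obtain ⟨lo, hi, e, C⟩ := Cp.comp_exists h.g.H t.2 h.g.hr h.g.good
    have hb : lo i + 3 ≤ hi i := by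
      rw [h.card_SS (i := i) (by omega) C] at h4
      omega
    obtain ⟨-, -, w5, -⟩ := h.vals4 hij hi1 C hb
    rw [w5] at v5
    have h6 : s.1 ∈ Pn.Tws i (SS i t) := Pn.mem_Tws.2 (S.T.tws h.g.H)
    have h7 := card_pos.2 ⟨_, h6⟩
    push_cast at v5
    omega
  rw [hE, card_empty] at v8
  refine ⟨?_, ?_, ?_, ?_⟩
  · rw [v3]
    unfold fa
    ring
  · rw [v5]
    simp
  · rw [v8]
    simp
  · rw [v10]
    ring

/-- the edges -/
lemma NJ.Ed_eq (hm : 2 ≤ m) : Ed x m = (range m).filter (fun k => (k = 0 → (uc (x 0)).card = 2) ∧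
    (k + 1 = m → (uc (x m)).card = 2)) := by
  obtain ⟨h1, -, -⟩ := h.inner hij hi1 B
  unfold Ed
  apply filter_congr
  intro k hk
  rw [mem_range] at hk
  constructor
  · rintro ⟨h2, h3⟩
    refine ⟨?_, ?_⟩
    · rintro rfl
      exact h2
    · intro h4
      rw [← h4]
      exact h3
  · rintro ⟨h2, h3⟩
    refine ⟨?_, ?_⟩
    · by_cases h4 : k = 0
      · rw [h4]
        exact h2 h4
      · exact h1 k (by omega) hk
    · by_cases h4 : k + 1 = m
      · rw [h4]
        exact h3 h4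
      · exact h1 (k + 1) (by omega) (by omega)

/-- natural rows -/
theorem NJ.vals_nat (h4 : 4 ≤ (st i (SS i t)).card) (hc : ∀ k, k < m → c k = 0) :
    Vals i (SS i t) (fa i (SS i t)) 0 0 (- 2 * ((Rd.NfC i (SS i t)).card : ℤ)) := by
  have h0 : Et x m c = ∅ := by
    unfold Et
    rw [filter_eq_empty_iff]
    intro k hk
    rw [hc k (mem_Ed.1 hk).1]
    norm_num
  have h1 := h.vals0 hij hi1 B h4 h0
  rw [sum_eq_zero (fun k hk => hc k (mem_Ed.1 hk).1)] at h1
  simpa using h1

/-- rings: a new pair at the ends, the first pair is lost -/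
theorem NJ.vals_R (h4 : 4 ≤ (st i (SS i t)).card) (hβ : β ≠ 0)
    (hc : ∀ k, 1 ≤ k → k < m → c k = 0) :
    Vals i (SS i t) (fa i (SS i t)) 0 0 (- 2 * ((Rd.NfC i (SS i t)).card : ℤ)) := by
  have h5 := (B.ends hβ).1
  have hk : ∀ k ∈ Ed x m, c k = 0 := by
    intro k hk
    obtain ⟨a1, a2, a3⟩ := mem_Ed.1 hk
    by_cases h6 : k = 0
    · rw [h6] at a2
      omega
    · exact hc k (by omega) a1
  have h0 : Et x m c = ∅ := by
    unfold Et
    rw [filter_eq_empty_iff]
    intro k hk'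
    rw [hk k hk']
    norm_num
  have h1 := h.vals0 hij hi1 B h4 h0
  rw [sum_eq_zero hk] at h1
  simpa using h1

/-- [DL] at an open end: a fold -/
theorem NJ.vals_fold (hm : 2 ≤ m) (h4 : 4 ≤ (st i (SS i t)).card) (c1 : c 1 = -1)
    (hc : ∀ k, 2 ≤ k → k < m → c k = 0) (h0 : (uc (x 0)).card = 1) :
    Vals i (SS i t) (1 + fa i (SS i t)) 0 0 (- 2 * ((Rd.NfC i (SS i t)).card : ℤ)) := by
  obtain ⟨hin, hV, hcs⟩ := h.inner hij hi1 B
  have hxm := hcs m le_rfl
  have n0 : 0 ∉ Ed x m := fun h5 => by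
    have := (mem_Ed.1 h5).2.1
    omega
  have n1 : 1 ∈ Ed x m := by
    rw [mem_Ed]
    refine ⟨by omega, hin 1 (by omega) (by omega), ?_⟩
    by_cases h5 : m = 2
    · have h6 := hV (by omega)
      have h7 : (1 + 1 : ℕ) = m := by omega
      rw [h7]
      omega
    · exact hin 2 (by omega) (by omega)
  have hk : ∀ k ∈ Ed x m, c k = if k = 1 then -1 else 0 := by
    intro k hk
    obtain ⟨a1, a2, a3⟩ := mem_Ed.1 hk
    by_cases h6 : k = 0
    · rw [h6] at hk
      exact absurd hk n0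
    · by_cases h7 : k = 1
      · rw [if_pos h7, h7, c1]
      · rw [if_neg h7]
        exact hc k (by omega) a1
  have h0 : Et x m c = ∅ := by
    unfold Et
    rw [filter_eq_empty_iff]
    intro k hk'
    rw [hk k hk']
    split_ifs <;> norm_num
  have h1 := h.vals0 hij hi1 B h4 h0
  rw [sum_congr rfl hk, sum_ite_eq' (Ed x m) 1, if_pos n1] at h1
  simpa using h1

/-- [DL] at a closed end -/
theorem NJ.vals_closed (hm : 2 ≤ m) (h4 : 4 ≤ (st i (SS i t)).card) (c0 : c 0 = 1)
    (c1 : c 1 = -1) (hc : ∀ k, 2 ≤ k → k < m → c k = 0) (h0 : (uc (x 0)).card = 2) :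
    Vals i (SS i t) (fa i (SS i t)) (-1) (((Rd.ETs i (SS i t)).card : ℤ) - fm i (SS i t) x 0)
      (1 - 2 * ((Rd.NfC i (SS i t)).card : ℤ)) := by
  classical
  obtain ⟨hin, hV, hcs⟩ := h.inner hij hi1 B
  obtain ⟨v3, v5, v8, v10⟩ := h.rowc hij hi1 B h4
  have hxm := hcs m le_rfl
  have n0 : 0 ∈ Ed x m := by
    rw [mem_Ed]
    exact ⟨by omega, h0, hin 1 (by omega) (by omega)⟩
  have n1 : 1 ∈ Ed x m := by
    rw [mem_Ed]
    refine ⟨by omega, hin 1 (by omega) (by omega), ?_⟩
    by_cases h5 : m = 2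
    · have h6 := hV (by omega)
      have h7 : (1 + 1 : ℕ) = m := by omega
      rw [h7]
      omega
    · exact hin 2 (by omega) (by omega)
  have hk : ∀ k ∈ Ed x m, c k = (if k = 0 then 1 else 0) + (if k = 1 then -1 else 0) := by
    intro k hk
    obtain ⟨a1, a2, a3⟩ := mem_Ed.1 hk
    by_cases h6 : k = 0
    · rw [h6, c0]
      norm_num
    · by_cases h7 : k = 1
      · rw [h7, c1]
        norm_num
      · rw [if_neg h6, if_neg h7, hc k (by omega) a1]
        norm_num
  have hEt : Et x m c = {0} := by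
    ext k
    rw [mem_Et, mem_singleton]
    constructor
    · rintro ⟨h5, h6⟩
      by_contra h7
      rw [hk k h5, if_neg h7] at h6
      split_ifs at h6 <;> omega
    · rintro rfl
      exact ⟨n0, c0⟩
  have s1 : ∑ k ∈ Ed x m, c k = 0 := by
    rw [sum_congr rfl hk, sum_add_distrib, sum_ite_eq' (Ed x m) 0, sum_ite_eq' (Ed x m) 1,
      if_pos n0, if_pos n1]
    norm_num
  have s2 : ∑ l ∈ (Ed x m).filter (fun l => l ≤ 0 + 2 ∧ 0 ≤ l + 2), c l = 0 := by
    rw [sum_congr rfl (fun l hl => hk l (mem_filter.1 hl).1), sum_add_distrib,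
      sum_ite_eq' _ 0, sum_ite_eq' _ 1, if_pos (mem_filter.2 ⟨n0, by omega, by omega⟩),
      if_pos (mem_filter.2 ⟨n1, by omega, by omega⟩)]
    norm_num
  rw [hEt] at v5 v8 v10
  rw [card_singleton] at v5
  rw [sum_singleton] at v8 v10
  refine ⟨?_, ?_, ?_, ?_⟩
  · rw [v3, s1]
    unfold fa
    ring
  · rw [v5]
    norm_num
  · rw [v8, s2]
    unfold fm
    ring
  · rw [v10]
    have : ({0} : Finset ℕ).filter (fun l => l ≤ 0 + 2 ∧ 0 ≤ l + 2) = {0} := by
      rw [filter_eq_self]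
      intro l hl
      rw [mem_singleton] at hl
      omega
    rw [this, card_singleton]
    norm_num

end row

end Pool.Agent.GaussPoset.Wd
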