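import Pool.Agent.W_448rc_h10.RcD

/-!
MP_448cb3_co, G2, case B, window `j - 1`: the coefficients (3,1), (5,2), (8,3), (10,4) of the rows
with the pattern [DL .. LD].  helper10.
-/

namespace Pool.Agent.GaussPoset.Wd

set_option linter.unusedSectionVars false

open Finset Win Win.I2 Win.Rc EK

universe u

variable {P : Type u} [Fintype P] [PartialOrder P] [DecidableEq P] {r j i : ℕ}
  {t : Tops P} {lo hi : ℕ → ℕ} {e : ℕ → ℕ → P} {m : ℕ} {x : ℕ → P} {c : ℕ → ℤ} {β : ℤ}

section row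

variable (h : NJ P r j) (hij : i + 1 = j) (hi1 : 1 ≤ i) (B : RowB P j t m x c β)
include h hij hi1 B

omit h hij hi1 B in
/-- the pattern as a sum of indicators -/
lemma pat6_val (hp : Pat6 m c β) {k : ℕ} (hk : k < m) : c k = (if k = 0 then 1 else 0) +
    (if k = 1 then -1 else 0) + (if k = m - 2 then -1 else 0) + (if k = m - 1 then 1 else 0) := by
  obtain ⟨h5, -, c0, c1, c3, c4, hc⟩ := hp
  by_cases a0 : k = 0
  · rw [a0, c0, if_pos rfl, if_neg (by omega), if_neg (by omega), if_neg (by omega)]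
    norm_num
  · by_cases a1 : k = 1
    · rw [a1, c1, if_neg (by omega), if_pos rfl, if_neg (by omega), if_neg (by omega)]
      norm_num
    · by_cases a2 : k = m - 2
      · rw [a2, c3, if_neg (by omega), if_neg (by omega), if_pos rfl, if_neg (by omega)]
        norm_num
      · by_cases a3 : k = m - 1
        · rw [a3, c4, if_neg (by omega), if_neg (by omega), if_neg (by omega), if_pos rfl]
          norm_num
        · rw [if_neg a0, if_neg a1, if_neg a2, if_neg a3, hc k (by omega) (by omega)]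
          norm_num

omit h hij hi1 B in
/-- sums of the pattern over sets of edges -/
lemma pat6_sum (hp : Pat6 m c β) {s : Finset ℕ} (hs : ∀ k ∈ s, k < m) :
    ∑ k ∈ s, c k = (if 0 ∈ s then 1 else 0) + (if 1 ∈ s then -1 else 0) +
      (if m - 2 ∈ s then -1 else 0) + (if m - 1 ∈ s then 1 else 0) := by
  rw [sum_congr rfl (fun k hk => pat6_val hp (hs k hk)), sum_add_distrib, sum_add_distrib,
    sum_add_distrib, sum_ite_eq' s 0, sum_ite_eq' s 1, sum_ite_eq' s (m - 2),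
    sum_ite_eq' s (m - 1)]

lemma NJ.inner_Ed (hm : 5 ≤ m) : (∀ k, 0 < k → k + 1 < m → k ∈ Ed x m) ∧
    (0 ∈ Ed x m ↔ (uc (x 0)).card = 2) ∧ (m - 1 ∈ Ed x m ↔ (uc (x m)).card = 2) := by
  obtain ⟨h1, -, -⟩ := h.inner hij hi1 B
  refine ⟨fun k a b => mem_Ed.2 ⟨by omega, h1 k a (by omega), h1 (k + 1) (by omega) b⟩, ?_, ?_⟩
  · rw [mem_Ed]
    exact ⟨fun h => h.2.1, fun h => ⟨by omega, h, h1 1 (by omega) (by omega)⟩⟩
  · rw [mem_Ed, show m - 1 + 1 = m by omega]
    exact ⟨fun h => h.2.2, fun h => ⟨by omega, h1 (m - 1) (by omega) (by omega), h⟩⟩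

/-- the twins of the pattern [DL .. LD] -/
lemma NJ.Et_six (hp : Pat6 m c β) : ∀ k, k ∈ Et x m c ↔ (k = 0 ∧ (uc (x 0)).card = 2) ∨
    (k = m - 1 ∧ (uc (x m)).card = 2) := by
  have hm := hp.1
  obtain ⟨e1, e2, e3⟩ := h.inner_Ed hij hi1 B hm
  intro k
  rw [mem_Et]
  constructor
  · rintro ⟨h1, h2⟩
    have hk := (mem_Ed.1 h1).1
    rw [pat6_val hp hk] at h2
    by_cases a0 : k = 0
    · left
      refine ⟨a0, ?_⟩
      rw [← e2, ← a0]
      exact h1
    · by_cases a3 : k = m - 1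
      · right
        refine ⟨a3, ?_⟩
        rw [← e3, ← a3]
        exact h1
      · rw [if_neg a0, if_neg a3] at h2
        split_ifs at h2 <;> omega
  · rintro (⟨rfl, h1⟩ | ⟨rfl, h1⟩)
    · exact ⟨e2.2 h1, hp.2.2.1⟩
    · exact ⟨e3.2 h1, hp.2.2.2.2.2.1⟩

/-- [DL .. LD], both ends open -/
theorem NJ.vals6_open (h4 : 4 ≤ (st i (SS i t)).card) (hp : Pat6 m c β)
    (h0 : (uc (x 0)).card = 1) (hm1 : (uc (x m)).card = 1) :
    Vals i (SS i t) (2 + fa i (SS i t)) 0 0 (- 2 * ((Rd.NfC i (SS i t)).card : ℤ)) := by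
  have hm := hp.1
  obtain ⟨e1, e2, e3⟩ := h.inner_Ed hij hi1 B hm
  have hEt : Et x m c = ∅ := by
    rw [eq_empty_iff_forall_notMem]
    intro k hk
    rcases (h.Et_six hij hi1 B hp k).1 hk with h5 | h5 <;> omega
  have h1 := h.vals0 hij hi1 B h4 hEt
  have n0 : 0 ∉ Ed x m := by rw [e2]; omega
  have n3 : m - 1 ∉ Ed x m := by rw [e3]; omega
  rw [pat6_sum hp (fun k hk => (mem_Ed.1 hk).1), if_neg n0, if_neg n3,
    if_pos (e1 1 (by omega) (by omega)), if_pos (e1 (m - 2) (by omega) (by omega))] at h1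
  have : -((0 : ℤ) + -1 + -1 + 0) + fa i (SS i t) = 2 + fa i (SS i t) := by ring
  rwa [this] at h1

/-- [DL .. LD], one closed end -/
theorem NJ.vals6_one (h4 : 4 ≤ (st i (SS i t)).card) (hp : Pat6 m c β)
    (h0 : (uc (x 0)).card = 2) (hm1 : (uc (x m)).card = 1) :
    Vals i (SS i t) (1 + fa i (SS i t)) (-1) (((Rd.ETs i (SS i t)).card : ℤ) - fm i (SS i t) x 0)
      (1 - 2 * ((Rd.NfC i (SS i t)).card : ℤ)) := by
  classical
  have hm := hp.1
  obtain ⟨e1, e2, e3⟩ := h.inner_Ed hij hi1 B hm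
  obtain ⟨v3, v5, v8, v10⟩ := h.rowc hij hi1 B h4
  have hEt : Et x m c = {0} := by
    ext k
    rw [h.Et_six hij hi1 B hp k, mem_singleton]
    constructor
    · rintro (h5 | h5) <;> omega
    · rintro rfl
      exact Or.inl ⟨rfl, h0⟩
  have n0 : 0 ∈ Ed x m := e2.2 h0
  have n1 := e1 1 (by omega) (by omega)
  have n2 := e1 (m - 2) (by omega) (by omega)
  have n3 : m - 1 ∉ Ed x m := by rw [e3]; omega
  have s1 : ∑ k ∈ Ed x m, c k = -1 := by
    rw [pat6_sum hp (fun k hk => (mem_Ed.1 hk).1), if_pos n0, if_neg n3, if_pos n1, if_pos n2]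
    norm_num
  have s2 : ∑ l ∈ (Ed x m).filter (fun l => l ≤ 0 + 2 ∧ 0 ≤ l + 2), c l = 0 := by
    rw [pat6_sum hp (fun k hk => (mem_Ed.1 (mem_filter.1 hk).1).1),
      if_pos (mem_filter.2 ⟨n0, by omega, by omega⟩),
      if_pos (mem_filter.2 ⟨n1, by omega, by omega⟩),
      if_neg (fun h5 => by have := (mem_filter.1 h5).2; omega),
      if_neg (fun h5 => by have := (mem_filter.1 h5).2; omega)]
    norm_num
  rw [hEt] at v5 v8 v10
  rw [card_singleton] at v5
  rw [sum_singleton] at v8 v10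
  refine ⟨?_, ?_, ?_, ?_⟩
  · rw [v3, s1]
    unfold fa
    ring
  · rw [v5]
    norm_num
  · rw [v8, s2]
    unfold fm
    ring
  · rw [v10]
    have : ({0} : Finset ℕ).filter (fun l => l ≤ 0 + 2 ∧ 0 ≤ l + 2) = {0} := by
      rw [filter_eq_self]
      intro l hl
      rw [mem_singleton] at hl
      omega
    rw [this, card_singleton]
    norm_num

/-- [DL .. LD], both ends closed -/
theorem NJ.vals6_two (h4 : 4 ≤ (st i (SS i t)).card) (hp : Pat6 m c β)
    (h0 : (uc (x 0)).card = 2) (hm1 : (uc (x m)).card = 2) :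
    Vals i (SS i t) (fa i (SS i t)) (-2) (((Rd.ETs i (SS i t)).card : ℤ) - fm i (SS i t) x 0 -
      fm i (SS i t) x (m - 1)) (2 - 2 * ((Rd.NfC i (SS i t)).card : ℤ)) := by
  classical
  have hm := hp.1
  obtain ⟨e1, e2, e3⟩ := h.inner_Ed hij hi1 B hm
  obtain ⟨v3, v5, v8, v10⟩ := h.rowc hij hi1 B h4
  have hEt : Et x m c = {0, m - 1} := by
    ext k
    rw [h.Et_six hij hi1 B hp k, mem_insert, mem_singleton]
    constructor
    · rintro (h5 | h5)
      · exact Or.inl h5.1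
      · exact Or.inr h5.1
    · rintro (rfl | rfl)
      · exact Or.inl ⟨rfl, h0⟩
      · exact Or.inr ⟨rfl, hm1⟩
  have hne : (0 : ℕ) ≠ m - 1 := by omega
  have n0 : 0 ∈ Ed x m := e2.2 h0
  have n1 := e1 1 (by omega) (by omega)
  have n2 := e1 (m - 2) (by omega) (by omega)
  have n3 : m - 1 ∈ Ed x m := e3.2 hm1
  have s1 : ∑ k ∈ Ed x m, c k = 0 := by
    rw [pat6_sum hp (fun k hk => (mem_Ed.1 hk).1), if_pos n0, if_pos n3, if_pos n1, if_pos n2]
    norm_num
  have s2 : ∑ l ∈ (Ed x m).filter (fun l => l ≤ 0 + 2 ∧ 0 ≤ l + 2), c l = 0 := by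
    rw [pat6_sum hp (fun k hk => (mem_Ed.1 (mem_filter.1 hk).1).1),
      if_pos (mem_filter.2 ⟨n0, by omega, by omega⟩),
      if_pos (mem_filter.2 ⟨n1, by omega, by omega⟩),
      if_neg (fun h5 => by have := (mem_filter.1 h5).2; omega),
      if_neg (fun h5 => by have := (mem_filter.1 h5).2; omega)]
    norm_num
  have s3 : ∑ l ∈ (Ed x m).filter (fun l => l ≤ m - 1 + 2 ∧ m - 1 ≤ l + 2), c l = 0 := by
    rw [pat6_sum hp (fun k hk => (mem_Ed.1 (mem_filter.1 hk).1).1),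
      if_neg (fun h5 => by have := (mem_filter.1 h5).2; omega),
      if_neg (fun h5 => by have := (mem_filter.1 h5).2; omega),
      if_pos (mem_filter.2 ⟨n2, by omega, by omega⟩),
      if_pos (mem_filter.2 ⟨n3, by omega, by omega⟩)]
    norm_num
  rw [hEt] at v5 v8 v10
  rw [card_pair hne] at v5
  rw [Finset.sum_pair hne] at v8 v10
  refine ⟨?_, ?_, ?_, ?_⟩
  · rw [v3, s1]
    unfold fa
    ring
  · rw [v5]
    norm_num
  · rw [v8, s2, s3]
    unfold fm
    ring
  · rw [v10]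
    have e4 : ({0, m - 1} : Finset ℕ).filter (fun l => l ≤ 0 + 2 ∧ 0 ≤ l + 2) = {0} := by
      ext l
      rw [mem_filter, mem_insert, mem_singleton, mem_singleton]
      omega
    have e5 : ({0, m - 1} : Finset ℕ).filter (fun l => l ≤ m - 1 + 2 ∧ m - 1 ≤ l + 2) =
        {m - 1} := by
      ext l
      rw [mem_filter, mem_insert, mem_singleton]
      omega
    rw [e4, e5, card_singleton, card_singleton]
    norm_num

end row

end Pool.Agent.GaussPoset.Wd
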