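import Pool.Agent.W_448rc_h10.RcE

/-!
MP_448cb3_co, G2, case B, window `j - 1`: the pinned sums of a pendant in terms of the pattern of
its row.  helper10.
-/

namespace Pool.Agent.GaussPoset.Wd

set_option linter.unusedSectionVars false

open Finset Win Win.I2 Win.Rc EK

universe u

variable {P : Type u} [Fintype P] [PartialOrder P] [DecidableEq P] {r j i : ℕ}
  {t : Tops P} {lo hi : ℕ → ℕ} {e : ℕ → ℕ → P} {m : ℕ} {x : ℕ → P} {c : ℕ → ℤ} {β : ℤ}

lemma cg3_al (b : ℕ) (V : PowerSeries A) : T8.cg 3 b V = I2.al 3 b V := by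
  unfold T8.cg I2.al
  rw [show T8.kk 3 = 1 from rfl, pow_one]

lemma cg5_be (b : ℕ) (V : PowerSeries A) : T8.cg 5 b V = I2.be 5 b V := by
  unfold T8.cg I2.be
  rw [show T8.kk 5 = 2 from rfl]

lemma Vals.al {S : Finset P} {a b q8 q10 : ℤ} (v : Vals i S a b q8 q10) :
    I2.al 3 (st i S).card (ZS i S) = a ∧ I2.be 5 (st i S).card (ZS i S) = b :=
  ⟨by rw [← cg3_al]; exact v.a3, by rw [← cg5_be]; exact v.b5⟩

section row

variable (h : NJ P r j) (hij : i + 1 = j) (hi1 : 1 ≤ i) (B : RowB P j t m x c β)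
include h hij hi1 B

/-- an edge meets an element of the row -/
lemma NJ.meet_se {k l : ℕ} (hl : l < m) (hk : k ≤ m) :
    ¬ Disjoint (se x l) (uc (x k)) ↔ l ≤ k + 1 ∧ k ≤ l + 2 := by
  classical
  have hsh : ∀ a b, a ≤ m → b ≤ m → ((∃ y, y ∈ uc (x a) ∧ y ∈ uc (x b)) ↔
      a ≤ b + 1 ∧ b ≤ a + 1) := by
    have key : ∀ a b, a < b → b ≤ m → ((∃ y, y ∈ uc (x a) ∧ y ∈ uc (x b)) ↔ b = a + 1) := by
      intro a b hab hb
      have h1 := B.ucv_x a b hab hb
      unfold ucv at h1
      constructor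
      · rintro ⟨y, h2, h3⟩
        by_contra h4
        rw [if_neg h4, card_eq_zero, filter_eq_empty_iff] at h1
        exact h1 (mem_univ y) ⟨mem_uc.1 h2, mem_uc.1 h3⟩
      · intro h4
        rw [if_pos h4] at h1
        obtain ⟨y, hy⟩ := card_pos.1 (by rw [h1]; norm_num :
          0 < (univ.filter (fun y => x a ⋖ y ∧ x b ⋖ y)).card)
        rw [mem_filter] at hy
        exact ⟨y, mem_uc.2 hy.2.1, mem_uc.2 hy.2.2⟩
    intro a b ha hb
    rcases lt_trichotomy a b with hab | hab | hab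
    · rw [key a b hab hb]
      omega
    · subst hab
      have h1 := B.row.lev_x a ha
      obtain ⟨y, hy⟩ := uc_nonempty h.g.H (x := x a) (by omega)
      constructor
      · intro _
        omega
      · intro _
        exact ⟨y, hy, hy⟩
    · have := key b a hab ha
      constructor
      · rintro ⟨y, h1, h2⟩
        have := this.1 ⟨y, h2, h1⟩
        omega
      · intro h1
        obtain ⟨y, h2, h3⟩ := this.2 (by omega)
        exact ⟨y, h3, h2⟩
  rw [not_disjoint_iff]
  unfold se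
  constructor
  · rintro ⟨y, h1, h2⟩
    rcases mem_union.1 h1 with h3 | h3
    · have := (hsh l k (by omega) hk).1 ⟨y, h3, h2⟩
      omega
    · have := (hsh (l + 1) k (by omega) hk).1 ⟨y, h3, h2⟩
      omega
  · intro h1
    by_cases h2 : k ≤ l + 1
    · obtain ⟨y, h3, h4⟩ := (hsh l k (by omega) hk).2 (by omega)
      exact ⟨y, mem_union_left _ h3, h4⟩
    · obtain ⟨y, h3, h4⟩ := (hsh (l + 1) k (by omega) hk).2 (by omega)
      exact ⟨y, mem_union_right _ h3, h4⟩

open Classical in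
/-- the balance of the three-site elements whose sites satisfy a test -/
theorem NJ.bal_test (R : Finset P → Prop) [DecidablePred R] :
    (((ZL i (SS i t)).filter (fun z => R (sit i z))).card : ℤ) -
      (((ZU i (SS i t)).filter (fun z => R (sit i z))).card : ℤ) =
      ∑ l ∈ (Ed x m).filter (fun l => R (se x l)), c l := by
  obtain ⟨lo, hi, e, C⟩ := Cp.comp_exists h.g.H t.2 h.g.hr h.g.good
  obtain ⟨ρ, O⟩ := h.ori hij hi1 B C
  subst hij
  have W := C.toWin
  have hS : ∀ y, lev y ≤ i + 2 → (y ∈ SS i t ↔ y ≤ (t : P)) :=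
    fun y hy => h.mem (i := i) (by omega) t (by omega)
  have hno : ∀ z : P, lev z = i + 2 → ¬ Hul.Jn z := fun z hz => h.no z (by omega)
  have hU : (((ZU i (SS i t)).filter (fun z => R (sit i z))).card : ℤ) =
      ∑ a ∈ (Ioo (lo i) (hi i)).filter (fun a => R (Tr e i a)), (1 : ℤ) := by
    have hmap : ∀ z ∈ (ZU i (SS i t)).filter (fun z => R (sit i z)),
        sit i z ∈ (Trs e lo hi i).filter R := by
      intro z hz
      rw [mem_filter] at hz
      obtain ⟨a, a1, a2, a3, -⟩ := ZU_spec W h.g t.2 hS hz.1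
      rw [mem_filter]
      refine ⟨?_, hz.2⟩
      unfold Trs
      rw [mem_image]
      exact ⟨a, mem_Ioo.2 ⟨a1, a2⟩, a3.symm⟩
    rw [card_eq_sum_card_fiberwise hmap]
    push_cast
    rw [sum_trs W (fun k => ((((ZU i (SS i t)).filter (fun z => R (sit i z))).filter
      (fun z => sit i z = k)).card : ℤ)) R]
    refine sum_congr rfl fun a ha => ?_
    rw [mem_filter, mem_Ioo] at ha
    have h1 : ((ZU i (SS i t)).filter (fun z => R (sit i z))).filter
        (fun z => sit i z = Tr e i a) = (ZU i (SS i t)).filter (fun z => sit i z = Tr e i a) := by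
      ext z
      rw [mem_filter, mem_filter, mem_filter]
      constructor
      · rintro ⟨⟨h1, -⟩, h2⟩
        exact ⟨h1, h2⟩
      · rintro ⟨h1, h2⟩
        exact ⟨⟨h1, by rw [h2]; exact ha.2⟩, h2⟩
    rw [h1, card_ZU_Tr W h.g t.2 hS ha.1.1 ha.1.2]
    norm_num
  have hL : (((ZL i (SS i t)).filter (fun z => R (sit i z))).card : ℤ) =
      ∑ a ∈ (Ioo (lo i) (hi i)).filter (fun a => R (Tr e i a)), (Rc.dv e i a : ℤ) := by
    have hmap : ∀ z ∈ (ZL i (SS i t)).filter (fun z => R (sit i z)),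
        sit i z ∈ (Trs e lo hi i).filter R := by
      intro z hz
      rw [mem_filter] at hz
      obtain ⟨a, a1, a2, a3, -⟩ := ZL_spec W h.g hi1 t.2 hS hno hz.1
      rw [mem_filter]
      refine ⟨?_, hz.2⟩
      unfold Trs
      rw [mem_image]
      exact ⟨a, mem_Ioo.2 ⟨a1, a2⟩, a3.symm⟩
    rw [card_eq_sum_card_fiberwise hmap]
    push_cast
    rw [sum_trs W (fun k => ((((ZL i (SS i t)).filter (fun z => R (sit i z))).filter
      (fun z => sit i z = k)).card : ℤ)) R]
    refine sum_congr rfl fun a ha => ?_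
    rw [mem_filter, mem_Ioo] at ha
    have h1 : ((ZL i (SS i t)).filter (fun z => R (sit i z))).filter
        (fun z => sit i z = Tr e i a) = (ZL i (SS i t)).filter (fun z => sit i z = Tr e i a) := by
      ext z
      rw [mem_filter, mem_filter, mem_filter]
      constructor
      · rintro ⟨⟨h1, -⟩, h2⟩
        exact ⟨h1, h2⟩
      · rintro ⟨h1, h2⟩
        exact ⟨⟨h1, by rw [h2]; exact ha.2⟩, h2⟩
    rw [h1, card_ZL_Tr W h.g hi1 t.2 hS hno ha.1.1 ha.1.2]
    rfl
  rw [hU, hL, ← sum_sub_distrib,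
    O.sum (fun a => (Rc.dv e i a : ℤ) - 1) (fun a => R (Tr e i a))]
  have h2 : (Ed x m).filter (fun k => R (Tr e i (ρ k))) =
      (Ed x m).filter (fun l => R (se x l)) := by
    apply filter_congr
    intro k hk
    rw [O.tr k hk]
  rw [h2]
  refine sum_congr rfl fun l hl => ?_
  rw [O.dv l (mem_Ed.1 (mem_filter.1 hl).1).1]
  ring

open Classical in
/-- the number of the twins whose sites satisfy a test -/
theorem NJ.tws_test (R : Finset P → Prop) [DecidablePred R] :
    (((Pn.Tws i (SS i t)).filter (fun q => R (sit i q.1))).card : ℤ) =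
      (((Et x m c).filter (fun l => R (se x l))).card : ℤ) := by
  obtain ⟨lo, hi, e, C⟩ := Cp.comp_exists h.g.H t.2 h.g.hr h.g.good
  obtain ⟨ρ, O⟩ := h.ori hij hi1 B C
  subst hij
  have W := C.toWin
  have hS : ∀ y, lev y ≤ i + 2 → (y ∈ SS i t ↔ y ≤ (t : P)) :=
    fun y hy => h.mem (i := i) (by omega) t (by omega)
  have hno : ∀ z : P, lev z = i + 2 → ¬ Hul.Jn z := fun z hz => h.no z (by omega)
  rw [card_filter, card_filter]
  push_cast
  rw [sum_tws W h.g hi1 t.2 hS hno (fun k => if R k then (1 : ℤ) else 0),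
    O.sum_D2 (fun b => if R (Tr e i b) then (1 : ℤ) else 0)]
  refine sum_congr rfl fun k hk => ?_
  rw [O.tr k (mem_Et.1 hk).1]

/-- the part of a pendant below the row -/
lemma NJ.top_pen {p : P} {k : ℕ} (hk : k ≤ m) (hp : p ⋖ x k) : topOf p = t := by
  have h1 := B.row.lev_x k hk
  have h2 := lev_cov h.g.H hp
  rw [← B.row.kap k hk]
  exact h.split hp (by omega)

open Classical in
/-- the pinned sum at the energy five of a pendant below `x k` -/
theorem NJ.net5c (h4 : 4 ≤ (st i (SS i t)).card) {p : P} {k : ℕ} (hk : k ≤ m)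
    (up : uc p = {x k}) (hp : p ∈ PD P i) :
    Pn.rho i (topOf : P → Tops P) 5 p - I2.al 3 (st i (SS i t)).card (ZS i (SS i t)) =
      ∑ l ∈ (Ed x m).filter (fun l => l ≤ k + 1 ∧ k ≤ l + 2), c l - fa i (SS i t) := by
  have ht : topOf p = t := h.top_pen hij hi1 B hk (mem_uc.1 (by rw [up]; simp))
  have h1 := Pn.nj_net5 h hij hi1 hp (by
    rw [ht]
    exact Pn.nj_F5_three h hij hi1 t (by omega))
  rw [ht] at h1
  rw [h1]
  have hs : sit i p = uc (x k) := Pn.sit_PDs h.g.H hp up
  have h2 := h.bal_test hij hi1 B (fun K => ¬ Disjoint K (sit i p))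
  have h3 : (Ed x m).filter (fun l => ¬ Disjoint (se x l) (sit i p)) =
      (Ed x m).filter (fun l => l ≤ k + 1 ∧ k ≤ l + 2) := by
    apply filter_congr
    intro l hl
    rw [hs]
    exact h.meet_se hij hi1 B (mem_Ed.1 hl).1 hk
  rw [h3] at h2
  unfold fa
  rw [← h2]
  ring

open Classical in
/-- the pinned sum at the energy seven of a pendant below `x k` -/
theorem NJ.net7c (h4 : 4 ≤ (st i (SS i t)).card) {p : P} {k : ℕ} (hk : k ≤ m)
    (up : uc p = {x k}) (hp : p ∈ PD P i) :
    Pn.rho i (topOf : P → Tops P) 7 p - I2.be 5 (st i (SS i t)).card (ZS i (SS i t)) =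
      (((Et x m c).filter (fun l => l ≤ k + 1 ∧ k ≤ l + 2)).card : ℤ) := by
  have ht : topOf p = t := h.top_pen hij hi1 B hk (mem_uc.1 (by rw [up]; simp))
  have h1 := Pn.nj_net7 h hij hi1 hp
  rw [ht, Pn.nj_F5_three h hij hi1 t (by omega), card_empty] at h1
  rw [h1]
  have hs : sit i p = uc (x k) := Pn.sit_PDs h.g.H hp up
  have h2 := h.tws_test hij hi1 B (fun K => ¬ Disjoint K (sit i p))
  have h3 : (Et x m c).filter (fun l => ¬ Disjoint (se x l) (sit i p)) =
      (Et x m c).filter (fun l => l ≤ k + 1 ∧ k ≤ l + 2) := by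
    apply filter_congr
    intro l hl
    rw [hs]
    exact h.meet_se hij hi1 B (mem_Ed.1 (mem_Et.1 hl).1).1 hk
  rw [h3] at h2
  rw [h2]
  simp

end row

end Pool.Agent.GaussPoset.Wd
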