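import Pool.Agent.W_448rc_h10.RcF

/-!
MP_448cb3_co, G2, case B, window `j - 1`: the quadratic form of the charges in terms of the
pattern of the row.  helper10.
-/

namespace Pool.Agent.GaussPoset.Wd

set_option linter.unusedSectionVars false

open Finset Win Win.I2 Win.Rc EK

universe u

variable {P : Type u} [Fintype P] [PartialOrder P] [DecidableEq P] {r j i : ℕ}
  {t : Tops P} {lo hi : ℕ → ℕ} {e : ℕ → ℕ → P} {m : ℕ} {x : ℕ → P} {c : ℕ → ℤ} {β : ℤ}
  {S : Finset P}

/-- weighted sums of the charges -/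
lemma chg_sum (H : Gr P r) (f : P → ℤ) : ∑ z ∈ Chs i S, chg i S z * f z =
    ∑ z ∈ ZU i S, f z + ∑ z ∈ FL i S, f z - ∑ z ∈ ZL i S, f z - ∑ z ∈ FU' i S, f z := by
  have d1 : Disjoint (ZL i S) (ZU i S) := by
    rw [disjoint_left]
    intro z h1 h2
    have := (mem_ZL.1 h1).2.1
    have := (mem_ZU.1 h2).2.1
    omega
  have d2 : Disjoint (ZL i S ∪ ZU i S) (FL i S) := by
    rw [disjoint_left]
    intro z h1 h2
    have h3 := lev_FL H h2
    rcases mem_union.1 h1 with h1 | h1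
    · have := (mem_ZL.1 h1).2.1
      omega
    · have := (mem_ZU.1 h1).2.1
      omega
  have d3 : Disjoint (ZL i S ∪ ZU i S ∪ FL i S) (FU' i S) := by
    rw [disjoint_left]
    intro z h1 h2
    have h3 := lev_FU H h2
    rcases mem_union.1 h1 with h1 | h1
    · rcases mem_union.1 h1 with h1 | h1
      · have := (mem_ZL.1 h1).2.1
        omega
      · have := (mem_ZU.1 h1).2.1
        omega
    · have := lev_FL H h1
      omega
  have c1 : ∀ z ∈ ZL i S, chg i S z = -1 := by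
    intro z hz
    unfold chg
    rw [if_neg]
    intro h1
    have h2 := (mem_ZL.1 hz).2.1
    rcases mem_union.1 h1 with h1 | h1
    · have := (mem_ZU.1 h1).2.1
      omega
    · have := lev_FL H h1
      omega
  have c2 : ∀ z ∈ ZU i S, chg i S z = 1 := by
    intro z hz
    unfold chg
    rw [if_pos (mem_union_left _ hz)]
  have c3 : ∀ z ∈ FL i S, chg i S z = 1 := by
    intro z hz
    unfold chg
    rw [if_pos (mem_union_right _ hz)]
  have c4 : ∀ z ∈ FU' i S, chg i S z = -1 := by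
    intro z hz
    unfold chg
    rw [if_neg]
    intro h1
    have h2 := lev_FU H hz
    rcases mem_union.1 h1 with h1 | h1
    · have := (mem_ZU.1 h1).2.1
      omega
    · have := lev_FL H h1
      omega
  unfold Chs
  rw [sum_union d3, sum_union d2, sum_union d1]
  rw [sum_congr rfl (fun z hz => by rw [c1 z hz, neg_one_mul] : ∀ z ∈ ZL i S, chg i S z * f z = - f z),
    sum_congr rfl (fun z hz => by rw [c2 z hz, one_mul] : ∀ z ∈ ZU i S, chg i S z * f z = f z),
    sum_congr rfl (fun z hz => by rw [c3 z hz, one_mul] : ∀ z ∈ FL i S, chg i S z * f z = f z),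
    sum_congr rfl (fun z hz => by rw [c4 z hz, neg_one_mul] : ∀ z ∈ FU' i S, chg i S z * f z = - f z),
    sum_neg_distrib, sum_neg_distrib]
  ring

section row

variable (h : NJ P r j) (hij : i + 1 = j) (hi1 : 1 ≤ i) (B : RowB P j t m x c β)
include h hij hi1 B

/-- weighted sums over the three-site elements -/
theorem NJ.wt_sum (f : Finset P → ℤ) :
    ∑ z ∈ ZL i (SS i t), f (sit i z) - ∑ z ∈ ZU i (SS i t), f (sit i z) =
      ∑ l ∈ Ed x m, c l * f (se x l) := by
  classical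
  obtain ⟨lo, hi, e, C⟩ := Cp.comp_exists h.g.H t.2 h.g.hr h.g.good
  obtain ⟨ρ, O⟩ := h.ori hij hi1 B C
  subst hij
  have W := C.toWin
  have hS : ∀ y, lev y ≤ i + 2 → (y ∈ SS i t ↔ y ≤ (t : P)) :=
    fun y hy => h.mem (i := i) (by omega) t (by omega)
  have hno : ∀ z : P, lev z = i + 2 → ¬ Hul.Jn z := fun z hz => h.no z (by omega)
  have fib : ∀ (s : Finset P) (n : ℕ → ℕ), (∀ z ∈ s, sit i z ∈ Trs e lo hi i) →
      (∀ a, lo i < a → a < hi i → (s.filter (fun z => sit i z = Tr e i a)).card = n a) →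
      ∑ z ∈ s, f (sit i z) = ∑ a ∈ Ioo (lo i) (hi i), (n a : ℤ) * f (Tr e i a) := by
    intro s n hmap hn
    rw [← sum_fiberwise_of_maps_to hmap]
    have h2 := sum_trs W (fun k => ∑ q ∈ s.filter (fun q => sit i q = k), f (sit i q))
      (fun _ => True)
    simp only [filter_true] at h2
    rw [h2]
    refine sum_congr rfl fun a ha => ?_
    rw [mem_Ioo] at ha
    rw [sum_congr rfl (fun q hq => by rw [(mem_filter.1 hq).2]), sum_const, nsmul_eq_mul,
      hn a ha.1 ha.2]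
  have hU := fib (ZU i (SS i t)) (fun _ => 1) (by
    intro z hz
    obtain ⟨a, a1, a2, a3, -⟩ := ZU_spec W h.g t.2 hS hz
    unfold Trs
    rw [mem_image]
    exact ⟨a, mem_Ioo.2 ⟨a1, a2⟩, a3.symm⟩) (fun a a1 a2 => card_ZU_Tr W h.g t.2 hS a1 a2)
  have hL := fib (ZL i (SS i t)) (fun a => Rc.dv e i a) (by
    intro z hz
    obtain ⟨a, a1, a2, a3, -⟩ := ZL_spec W h.g hi1 t.2 hS hno hz
    unfold Trs
    rw [mem_image]
    exact ⟨a, mem_Ioo.2 ⟨a1, a2⟩, a3.symm⟩)
    (fun a a1 a2 => card_ZL_Tr W h.g hi1 t.2 hS hno a1 a2)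
  rw [hU, hL, ← sum_sub_distrib]
  have h3 := O.sum (fun a => (Rc.dv e i a : ℤ) * f (Tr e i a) - ((1 : ℕ) : ℤ) * f (Tr e i a))
    (fun _ => True)
  simp only [filter_true] at h3
  rw [h3]
  refine sum_congr rfl fun l hl => ?_
  rw [O.dv l (mem_Ed.1 hl).1, O.tr l hl]
  push_cast
  ring

/-- two edges meet -/
lemma NJ.meet_ee {k l : ℕ} (hl : l < m) (hk : k < m) :
    ¬ Disjoint (se x l) (se x k) ↔ l ≤ k + 2 ∧ k ≤ l + 2 := by
  have h1 := h.meet_se hij hi1 B hl (show k ≤ m by omega)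
  have h2 := h.meet_se hij hi1 B hl (show k + 1 ≤ m by omega)
  have h3 : ¬ Disjoint (se x l) (se x k) ↔
      ¬ Disjoint (se x l) (uc (x k)) ∨ ¬ Disjoint (se x l) (uc (x (k + 1))) := by
    conv_lhs => rw [show se x k = uc (x k) ∪ uc (x (k + 1)) from rfl, disjoint_union_right]
    tauto
  rw [h3, h1, h2]
  omega

/-- THE QUADRATIC FORM, no pendant -/
theorem NJ.QQ_none (h0 : FL i (SS i t) = ∅) (h1 : FU' i (SS i t) = ∅) : Win.QQ i (SS i t) =
    ∑ l ∈ Ed x m, ∑ k ∈ (Ed x m).filter (fun k => l ≤ k + 2 ∧ k ≤ l + 2), c l * c k := by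
  classical
  have H := h.g.H
  have key : ∀ f : Finset P → ℤ, ∑ z ∈ Chs i (SS i t), chg i (SS i t) z * f (sit i z) =
      - ∑ l ∈ Ed x m, c l * f (se x l) := by
    intro f
    rw [chg_sum H (fun z => f (sit i z)), h0, h1, ← h.wt_sum hij hi1 B f, sum_empty]
    ring
  unfold Win.QQ
  have e1 : ∀ z ∈ Chs i (SS i t), ∑ z' ∈ Chs i (SS i t),
      (if Disjoint (sit i z) (sit i z') then (0 : ℤ) else
        chg i (SS i t) z * chg i (SS i t) z') =
      chg i (SS i t) z * (- ∑ l ∈ Ed x m, c l *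
        (if Disjoint (sit i z) (se x l) then (0 : ℤ) else 1)) := by
    intro z _
    rw [← key (fun K => if Disjoint (sit i z) K then (0 : ℤ) else 1), mul_sum]
    refine sum_congr rfl fun z' _ => ?_
    split_ifs
    · ring
    · ring
  rw [sum_congr rfl e1, key (fun K => - ∑ l ∈ Ed x m, c l *
        (if Disjoint K (se x l) then (0 : ℤ) else 1)), ← sum_neg_distrib]
  refine sum_congr rfl fun l hl => ?_
  rw [sum_filter, mul_neg, neg_neg, mul_sum]
  refine sum_congr rfl fun k hk => ?_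
  have h2 := h.meet_ee hij hi1 B (mem_Ed.1 hl).1 (mem_Ed.1 hk).1
  by_cases h3 : Disjoint (se x l) (se x k)
  · rw [if_pos h3, if_neg (fun h4 => (h2.2 h4) h3)]
    ring
  · rw [if_neg h3, if_pos (h2.1 h3)]
    ring

/-- THE QUADRATIC FORM, a pendant at the element `x q` -/
theorem NJ.QQ_pend {q : ℕ} (hq : q ≤ m)
    (h0 : ∀ z, z ∈ FL i (SS i t) ∨ z ∈ FU' i (SS i t) → sit i z = uc (x q)) : Win.QQ i (SS i t) =
    ∑ l ∈ Ed x m, ∑ k ∈ (Ed x m).filter (fun k => l ≤ k + 2 ∧ k ≤ l + 2), c l * c k -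
      2 * fa i (SS i t) * ∑ l ∈ (Ed x m).filter (fun l => l ≤ q + 1 ∧ q ≤ l + 2), c l +
        fa i (SS i t) ^ 2 := by
  classical
  have H := h.g.H
  have key : ∀ f : Finset P → ℤ, ∑ z ∈ Chs i (SS i t), chg i (SS i t) z * f (sit i z) =
      - ∑ l ∈ Ed x m, c l * f (se x l) + fa i (SS i t) * f (uc (x q)) := by
    intro f
    rw [chg_sum H (fun z => f (sit i z)), ← h.wt_sum hij hi1 B f,
      sum_congr rfl (fun z hz => by rw [h0 z (Or.inl hz)] :
        ∀ z ∈ FL i (SS i t), f (sit i z) = f (uc (x q))),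
      sum_congr rfl (fun z hz => by rw [h0 z (Or.inr hz)] :
        ∀ z ∈ FU' i (SS i t), f (sit i z) = f (uc (x q))), sum_const, sum_const,
      nsmul_eq_mul, nsmul_eq_mul]
    unfold fa
    ring
  have hne : ¬ Disjoint (uc (x q)) (uc (x q)) := by
    have h1 := B.row.lev_x q hq
    obtain ⟨y, hy⟩ := uc_nonempty h.g.H (x := x q) (by omega)
    rw [not_disjoint_iff]
    exact ⟨y, hy, hy⟩
  unfold Win.QQ
  have e1 : ∀ z ∈ Chs i (SS i t), ∑ z' ∈ Chs i (SS i t),
      (if Disjoint (sit i z) (sit i z') then (0 : ℤ) else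
        chg i (SS i t) z * chg i (SS i t) z') =
      chg i (SS i t) z * (- ∑ l ∈ Ed x m, c l *
        (if Disjoint (sit i z) (se x l) then (0 : ℤ) else 1) +
        fa i (SS i t) * (if Disjoint (sit i z) (uc (x q)) then (0 : ℤ) else 1)) := by
    intro z _
    rw [← key (fun K => if Disjoint (sit i z) K then (0 : ℤ) else 1), mul_sum]
    refine sum_congr rfl fun z' _ => ?_
    split_ifs
    · ring
    · ring
  rw [sum_congr rfl e1, key (fun K => - ∑ l ∈ Ed x m, c l *
        (if Disjoint K (se x l) then (0 : ℤ) else 1) +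
        fa i (SS i t) * (if Disjoint K (uc (x q)) then (0 : ℤ) else 1))]
  rw [if_neg hne]
  have s1 : ∑ l ∈ Ed x m, c l * (- ∑ k ∈ Ed x m, c k *
      (if Disjoint (se x l) (se x k) then (0 : ℤ) else 1) +
        fa i (SS i t) * (if Disjoint (se x l) (uc (x q)) then (0 : ℤ) else 1)) =
      - ∑ l ∈ Ed x m, ∑ k ∈ (Ed x m).filter (fun k => l ≤ k + 2 ∧ k ≤ l + 2), c l * c k +
      fa i (SS i t) * ∑ l ∈ (Ed x m).filter (fun l => l ≤ q + 1 ∧ q ≤ l + 2), c l := by
    rw [← sum_neg_distrib, mul_sum, sum_filter, ← sum_add_distrib]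
    refine sum_congr rfl fun l hl => ?_
    have t1 : ∑ k ∈ (Ed x m).filter (fun k => l ≤ k + 2 ∧ k ≤ l + 2), c l * c k =
        c l * ∑ k ∈ Ed x m, c k * (if Disjoint (se x l) (se x k) then (0 : ℤ) else 1) := by
      rw [sum_filter, mul_sum]
      refine sum_congr rfl fun k hk => ?_
      have h2 := h.meet_ee hij hi1 B (mem_Ed.1 hl).1 (mem_Ed.1 hk).1
      by_cases h3 : Disjoint (se x l) (se x k)
      · rw [if_pos h3, if_neg (fun h4 => (h2.2 h4) h3)]
        ring
      · rw [if_neg h3, if_pos (h2.1 h3)]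
        ring
    rw [t1]
    have h2 := h.meet_se hij hi1 B (mem_Ed.1 hl).1 hq
    by_cases h3 : Disjoint (se x l) (uc (x q))
    · rw [if_pos h3, if_neg (fun h4 => (h2.2 h4) h3)]
      ring
    · rw [if_neg h3, if_pos (h2.1 h3)]
      ring
  have s2 : ∑ l ∈ Ed x m, c l * (if Disjoint (uc (x q)) (se x l) then (0 : ℤ) else 1) =
      ∑ l ∈ (Ed x m).filter (fun l => l ≤ q + 1 ∧ q ≤ l + 2), c l := by
    rw [sum_filter]
    refine sum_congr rfl fun l hl => ?_
    have h2 := h.meet_se hij hi1 B (mem_Ed.1 hl).1 hq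
    rw [disjoint_comm] at h2
    by_cases h3 : Disjoint (uc (x q)) (se x l)
    · rw [if_pos h3, if_neg (fun h4 => (h2.2 h4) h3)]
      ring
    · rw [if_neg h3, if_pos (h2.1 h3)]
      ring
  rw [s1, s2]
  ring

end row

end Pool.Agent.GaussPoset.Wd
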