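import Pool.Agent.W_448rc_h10.RcG

/-!
MP_448cb3_co, G2, case B, window `j - 1`: the quadratic form of the charges, closed values on
the natural, ring, fold, closed and two-sided rows.  helper10.
-/

namespace Pool.Agent.GaussPoset.Wd

set_option linter.unusedSectionVars false

open Finset Win Win.I2 Win.Rc EK

universe u

variable {P : Type u} [Fintype P] [PartialOrder P] [DecidableEq P] {r j i : ℕ}
  {t : Tops P} {lo hi : ℕ → ℕ} {e : ℕ → ℕ → P} {m : ℕ} {x : ℕ → P} {c : ℕ → ℤ} {β : ℤ}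
  {S : Finset P}

/-- sums of a pattern which is supported on the edges `0` and `1` -/
lemma two_sum {s : Finset ℕ} (hs : ∀ k ∈ s, k < m) (f : ℕ → ℤ)
    (hc : ∀ k, 2 ≤ k → k < m → c k = 0) :
    ∑ k ∈ s, c k * f k = (if 0 ∈ s then c 0 * f 0 else 0) + (if 1 ∈ s then c 1 * f 1 else 0) := by
  classical
  have h1 : ∀ k ∈ s, c k * f k = (if k = 0 then c 0 * f 0 else 0) +
      (if k = 1 then c 1 * f 1 else 0) := by
    intro k hk
    rcases Nat.lt_or_ge k 2 with h2 | h2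
    · interval_cases k
      · simp
      · simp
    · rw [hc k h2 (hs k hk), if_neg (by omega), if_neg (by omega)]
      ring
  rw [sum_congr rfl h1, sum_add_distrib, sum_ite_eq', sum_ite_eq']

/-- the quadratic sum of a pattern supported on the edges `0` and `1` -/
lemma quad01 (x : ℕ → P) (hc : ∀ k, 2 ≤ k → k < m → c k = 0) :
    ∑ l ∈ Ed x m, ∑ k ∈ (Ed x m).filter (fun k => l ≤ k + 2 ∧ k ≤ l + 2), c l * c k =
      ((if 0 ∈ Ed x m then c 0 else 0) + (if 1 ∈ Ed x m then c 1 else 0)) ^ 2 := by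
  classical
  have h1 : ∀ l ∈ Ed x m, ∑ k ∈ (Ed x m).filter (fun k => l ≤ k + 2 ∧ k ≤ l + 2), c l * c k =
      c l * ((if 0 ∈ Ed x m then c 0 else 0) + (if 1 ∈ Ed x m then c 1 else 0)) := by
    intro l hl
    rcases Nat.lt_or_ge l 2 with h2 | h2
    · rw [← mul_sum]
      congr 1
      have h3 := two_sum (s := (Ed x m).filter (fun k => l ≤ k + 2 ∧ k ≤ l + 2)) (c := c)
        (fun k hk => (mem_Ed.1 (mem_filter.1 hk).1).1) (fun _ => 1) hc
      simp only [mul_one] at h3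
      rw [h3]
      have e0 : (0 ∈ (Ed x m).filter (fun k => l ≤ k + 2 ∧ k ≤ l + 2)) ↔ 0 ∈ Ed x m := by
        rw [mem_filter]
        constructor
        · intro h
          exact h.1
        · intro h
          exact ⟨h, by omega, by omega⟩
      have e1 : (1 ∈ (Ed x m).filter (fun k => l ≤ k + 2 ∧ k ≤ l + 2)) ↔ 1 ∈ Ed x m := by
        rw [mem_filter]
        constructor
        · intro h
          exact h.1
        · intro h
          exact ⟨h, by omega, by omega⟩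
      simp only [e0, e1]
    · rw [hc l h2 (mem_Ed.1 hl).1]
      simp
  rw [sum_congr rfl h1, ← sum_mul]
  have h3 := two_sum (s := Ed x m) (c := c) (fun k hk => (mem_Ed.1 hk).1) (fun _ => 1) hc
  simp only [mul_one] at h3
  rw [h3]
  ring

/-- the sum of a pattern supported on the edges `0` and `1` near an element -/
lemma near01 (x : ℕ → P) (q : ℕ) (hc : ∀ k, 2 ≤ k → k < m → c k = 0) :
    ∑ l ∈ (Ed x m).filter (fun l => l ≤ q + 1 ∧ q ≤ l + 2), c l =
      (if 0 ∈ Ed x m ∧ q ≤ 2 then c 0 else 0) + (if 1 ∈ Ed x m ∧ q ≤ 3 then c 1 else 0) := by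
  classical
  have h3 := two_sum (s := (Ed x m).filter (fun l => l ≤ q + 1 ∧ q ≤ l + 2)) (c := c)
    (fun k hk => (mem_Ed.1 (mem_filter.1 hk).1).1) (fun _ => 1) hc
  simp only [mul_one] at h3
  rw [h3]
  have e0 : (0 ∈ (Ed x m).filter (fun l => l ≤ q + 1 ∧ q ≤ l + 2)) ↔ (0 ∈ Ed x m ∧ q ≤ 2) := by
    rw [mem_filter]
    constructor
    · intro h
      exact ⟨h.1, by omega⟩
    · intro h
      exact ⟨h.1, by omega, by omega⟩
  have e1 : (1 ∈ (Ed x m).filter (fun l => l ≤ q + 1 ∧ q ≤ l + 2)) ↔ (1 ∈ Ed x m ∧ q ≤ 3) := by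
    rw [mem_filter]
    constructor
    · intro h
      exact ⟨h.1, by omega⟩
    · intro h
      exact ⟨h.1, by omega, by omega⟩
  simp only [e0, e1]

section row

variable (h : NJ P r j) (hij : i + 1 = j) (hi1 : 1 ≤ i) (B : RowB P j t m x c β)
include h hij hi1 B

/-- THE QUADRATIC FORM of a row whose pattern lives on the edges `0` and `1`: no pendant -/
theorem NJ.QQ01_none (hc : ∀ k, 2 ≤ k → k < m → c k = 0)
    (h0 : FL i (SS i t) = ∅) (h1 : FU' i (SS i t) = ∅) : Win.QQ i (SS i t) =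
      ((if 0 ∈ Ed x m then c 0 else 0) + (if 1 ∈ Ed x m then c 1 else 0)) ^ 2 := by
  rw [h.QQ_none hij hi1 B h0 h1, quad01 x hc]

/-- THE QUADRATIC FORM of a row whose pattern lives on the edges `0` and `1`: a pendant -/
theorem NJ.QQ01_pend (hc : ∀ k, 2 ≤ k → k < m → c k = 0) {q : ℕ} (hq : q ≤ m)
    (h0 : ∀ z, z ∈ FL i (SS i t) ∨ z ∈ FU' i (SS i t) → sit i z = uc (x q)) :
    Win.QQ i (SS i t) =
      ((if 0 ∈ Ed x m then c 0 else 0) + (if 1 ∈ Ed x m then c 1 else 0)) ^ 2 -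
      2 * fa i (SS i t) * ((if 0 ∈ Ed x m ∧ q ≤ 2 then c 0 else 0) +
        (if 1 ∈ Ed x m ∧ q ≤ 3 then c 1 else 0)) + fa i (SS i t) ^ 2 := by
  rw [h.QQ_pend hij hi1 B hq h0, quad01 x hc, near01 x q hc]

/-- natural rows -/
theorem NJ.QQ_nat (hc : ∀ k, k < m → c k = 0) {q : ℕ} (hq : q ≤ m)
    (h0 : ∀ z, z ∈ FL i (SS i t) ∨ z ∈ FU' i (SS i t) → sit i z = uc (x q)) :
    Win.QQ i (SS i t) = fa i (SS i t) ^ 2 := by
  rw [h.QQ01_pend hij hi1 B (fun k _ hk => hc k hk) hq h0]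
  have e0 : (if 0 ∈ Ed x m then c 0 else 0) = 0 := by
    split_ifs with h1
    · exact hc 0 (mem_Ed.1 h1).1
    · rfl
  have e1 : (if 1 ∈ Ed x m then c 1 else 0) = 0 := by
    split_ifs with h1
    · exact hc 1 (mem_Ed.1 h1).1
    · rfl
  have e2 : (if 0 ∈ Ed x m ∧ q ≤ 2 then c 0 else 0) = 0 := by
    split_ifs with h1
    · exact hc 0 (mem_Ed.1 h1.1).1
    · rfl
  have e3 : (if 1 ∈ Ed x m ∧ q ≤ 3 then c 1 else 0) = 0 := by
    split_ifs with h1
    · exact hc 1 (mem_Ed.1 h1.1).1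
    · rfl
  rw [e0, e1, e2, e3]
  ring

/-- rows with all inner coefficients zero and no edge at the end `x 0` -/
theorem NJ.QQ_R (hc : ∀ k, 1 ≤ k → k < m → c k = 0) (hn : 0 ∉ Ed x m) {q : ℕ} (hq : q ≤ m)
    (h0 : ∀ z, z ∈ FL i (SS i t) ∨ z ∈ FU' i (SS i t) → sit i z = uc (x q)) :
    Win.QQ i (SS i t) = fa i (SS i t) ^ 2 := by
  rw [h.QQ01_pend hij hi1 B (fun k hk hk2 => hc k (by omega) hk2) hq h0]
  have e1 : (if 1 ∈ Ed x m then c 1 else 0) = 0 := by
    split_ifs with h1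
    · exact hc 1 le_rfl (mem_Ed.1 h1).1
    · rfl
  have e3 : (if 1 ∈ Ed x m ∧ q ≤ 3 then c 1 else 0) = 0 := by
    split_ifs with h1
    · exact hc 1 le_rfl (mem_Ed.1 h1.1).1
    · rfl
  rw [e1, e3, if_neg hn, if_neg (fun h1 => hn h1.1)]
  ring

/-- fold rows -/
theorem NJ.QQ_fold (hm : 2 ≤ m) (h4 : 4 ≤ (st i (SS i t)).card) (c1 : c 1 = -1)
    (hc : ∀ k, 2 ≤ k → k < m → c k = 0) (hu : (uc (x 0)).card = 1) {q : ℕ} (hq : q ≤ m)
    (h0 : ∀ z, z ∈ FL i (SS i t) ∨ z ∈ FU' i (SS i t) → sit i z = uc (x q)) :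
    Win.QQ i (SS i t) = 1 + 2 * (if q ≤ 3 then fa i (SS i t) else 0) + fa i (SS i t) ^ 2 := by
  classical
  have hE := h.Ed_eq hij hi1 B hm
  have n0 : 0 ∉ Ed x m := by
    rw [hE, mem_filter]
    rintro ⟨-, h1, -⟩
    have := h1 rfl
    omega
  have n1 : 1 ∈ Ed x m := by
    rw [hE, mem_filter, mem_range]
    refine ⟨by omega, fun h1 => by omega, fun h1 => ?_⟩
    obtain ⟨-, h2, h3⟩ := h.inner hij hi1 B
    have h4' := h2 (by omega)
    rcases h3 m le_rfl with h5 | h5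
    · omega
    · exact h5
  rw [h.QQ01_pend hij hi1 B hc hq h0, if_neg n0, if_pos n1, if_neg (fun h1 => n0 h1.1), c1]
  by_cases h5 : q ≤ 3
  · rw [if_pos ⟨n1, h5⟩, if_pos h5]
    ring
  · rw [if_neg (fun h6 => h5 h6.2), if_neg h5]
    ring

theorem NJ.QQ_fold0 (hm : 2 ≤ m) (h4 : 4 ≤ (st i (SS i t)).card) (c1 : c 1 = -1)
    (hc : ∀ k, 2 ≤ k → k < m → c k = 0) (hu : (uc (x 0)).card = 1)
    (h0 : FL i (SS i t) = ∅) (h1 : FU' i (SS i t) = ∅) : Win.QQ i (SS i t) = 1 := by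
  have hfa : fa i (SS i t) = 0 := by
    unfold fa
    rw [h0, h1]
    simp
  have h2 := h.QQ_fold hij hi1 B hm h4 c1 hc hu (q := 0) (Nat.zero_le m) (by
    rintro z (hz | hz)
    · rw [h0] at hz
      simp at hz
    · rw [h1] at hz
      simp at hz)
  rw [h2, hfa]
  simp

/-- closed rows -/
theorem NJ.QQ_closed (hm : 2 ≤ m) (h4 : 4 ≤ (st i (SS i t)).card) (c0 : c 0 = 1) (c1 : c 1 = -1)
    (hc : ∀ k, 2 ≤ k → k < m → c k = 0) (hu : (uc (x 0)).card = 2) {q : ℕ} (hq : q ≤ m)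
    (h0 : ∀ z, z ∈ FL i (SS i t) ∨ z ∈ FU' i (SS i t) → sit i z = uc (x q)) :
    Win.QQ i (SS i t) = 2 * (if q = 3 then fa i (SS i t) else 0) + fa i (SS i t) ^ 2 := by
  classical
  have hE := h.Ed_eq hij hi1 B hm
  obtain ⟨-, h2, h3⟩ := h.inner hij hi1 B
  have h4' := h2 (by omega)
  have hme : m = 2 → (uc (x m)).card = 2 := by
    intro h5
    rcases h3 m le_rfl with h6 | h6
    · omega
    · exact h6
  have n0 : 0 ∈ Ed x m := by
    rw [hE, mem_filter, mem_range]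
    exact ⟨by omega, fun _ => hu, fun h5 => by omega⟩
  have n1 : 1 ∈ Ed x m := by
    rw [hE, mem_filter, mem_range]
    exact ⟨by omega, fun h1 => by omega, fun h1 => hme (by omega)⟩
  rw [h.QQ01_pend hij hi1 B hc hq h0, if_pos n0, if_pos n1, c0, c1]
  by_cases h5 : q ≤ 2
  · rw [if_pos ⟨n0, h5⟩, if_pos ⟨n1, by omega⟩, if_neg (by omega)]
    ring
  · rw [if_neg (fun h6 => h5 h6.2)]
    by_cases h7 : q = 3
    · rw [if_pos ⟨n1, by omega⟩, if_pos h7]
      ring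
    · rw [if_neg (fun h6 => by omega), if_neg h7]
      ring

theorem NJ.QQ_closed0 (hm : 2 ≤ m) (h4 : 4 ≤ (st i (SS i t)).card) (c0 : c 0 = 1)
    (c1 : c 1 = -1) (hc : ∀ k, 2 ≤ k → k < m → c k = 0) (hu : (uc (x 0)).card = 2)
    (h0 : FL i (SS i t) = ∅) (h1 : FU' i (SS i t) = ∅) : Win.QQ i (SS i t) = 0 := by
  have hfa : fa i (SS i t) = 0 := by
    unfold fa
    rw [h0, h1]
    simp
  have h2 := h.QQ_closed hij hi1 B hm h4 c0 c1 hc hu (q := 0) (Nat.zero_le m) (by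
    rintro z (hz | hz)
    · rw [h0] at hz
      simp at hz
    · rw [h1] at hz
      simp at hz)
  rw [h2, hfa]
  simp

/-- THE QUADRATIC FORM of the two-sided rows -/
theorem NJ.QQ6 (hp : Pat6 m c β) {q : ℕ} (hq : q ≤ m)
    (h0 : ∀ z, z ∈ FL i (SS i t) ∨ z ∈ FU' i (SS i t) → sit i z = uc (x q)) :
    Win.QQ i (SS i t) =
      (if 0 ∈ Ed x m then 0 else 1) + (if m - 1 ∈ Ed x m then 0 else 1) + (if m = 5 then 2 else 0) -
      2 * fa i (SS i t) * ((if 0 ∈ Ed x m ∧ q ≤ 2 then 1 else 0) + (if q ≤ 3 then -1 else 0) +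
        (if m ≤ q + 3 then -1 else 0) + (if m - 1 ∈ Ed x m ∧ m ≤ q + 2 then 1 else 0)) +
      fa i (SS i t) ^ 2 := by
  classical
  have hm : 5 ≤ m := hp.1
  obtain ⟨i1, -, -⟩ := h.inner_Ed hij hi1 B hm
  have n1 := i1 1 (by omega) (by omega)
  have n2 := i1 (m - 2) (by omega) (by omega)
  have nx : ∀ l ∈ Ed x m, ∑ k ∈ (Ed x m).filter (fun k => l ≤ k + 2 ∧ k ≤ l + 2), c l * c k =
      c l * ((if 0 ∈ Ed x m ∧ l ≤ 2 then 1 else 0) + (if l ≤ 3 then -1 else 0) +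
        (if m ≤ l + 4 then -1 else 0) + (if m - 1 ∈ Ed x m ∧ m ≤ l + 3 then 1 else 0)) := by
    intro l hl
    have hlm := (mem_Ed.1 hl).1
    rw [← mul_sum, pat6_sum hp (fun k hk => (mem_Ed.1 (mem_filter.1 hk).1).1)]
    have e0 : (0 ∈ (Ed x m).filter (fun k => l ≤ k + 2 ∧ k ≤ l + 2)) ↔ (0 ∈ Ed x m ∧ l ≤ 2) := by
      rw [mem_filter]
      constructor
      · intro h
        exact ⟨h.1, by omega⟩
      · intro h
        exact ⟨h.1, by omega, by omega⟩
    have e1 : (1 ∈ (Ed x m).filter (fun k => l ≤ k + 2 ∧ k ≤ l + 2)) ↔ l ≤ 3 := by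
      rw [mem_filter]
      constructor
      · intro h
        omega
      · intro h
        exact ⟨n1, by omega, by omega⟩
    have e2 : (m - 2 ∈ (Ed x m).filter (fun k => l ≤ k + 2 ∧ k ≤ l + 2)) ↔ m ≤ l + 4 := by
      rw [mem_filter]
      constructor
      · intro h
        omega
      · intro h
        exact ⟨n2, by omega, by omega⟩
    have e3 : (m - 1 ∈ (Ed x m).filter (fun k => l ≤ k + 2 ∧ k ≤ l + 2)) ↔
        (m - 1 ∈ Ed x m ∧ m ≤ l + 3) := by
      rw [mem_filter]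
      constructor
      · intro h
        exact ⟨h.1, by omega⟩
      · intro h
        exact ⟨h.1, by omega, by omega⟩
    simp only [e0, e1, e2, e3]
  have nq : ∑ l ∈ (Ed x m).filter (fun l => l ≤ q + 1 ∧ q ≤ l + 2), c l =
      (if 0 ∈ Ed x m ∧ q ≤ 2 then 1 else 0) + (if q ≤ 3 then -1 else 0) +
        (if m ≤ q + 3 then -1 else 0) + (if m - 1 ∈ Ed x m ∧ m ≤ q + 2 then 1 else 0) := by
    rw [pat6_sum hp (fun k hk => (mem_Ed.1 (mem_filter.1 hk).1).1)]
    have e0 : (0 ∈ (Ed x m).filter (fun l => l ≤ q + 1 ∧ q ≤ l + 2)) ↔ (0 ∈ Ed x m ∧ q ≤ 2) := by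
      rw [mem_filter]
      constructor
      · intro h
        exact ⟨h.1, by omega⟩
      · intro h
        exact ⟨h.1, by omega, by omega⟩
    have e1 : (1 ∈ (Ed x m).filter (fun l => l ≤ q + 1 ∧ q ≤ l + 2)) ↔ q ≤ 3 := by
      rw [mem_filter]
      constructor
      · intro h
        omega
      · intro h
        exact ⟨n1, by omega, by omega⟩
    have e2 : (m - 2 ∈ (Ed x m).filter (fun l => l ≤ q + 1 ∧ q ≤ l + 2)) ↔ m ≤ q + 3 := by
      rw [mem_filter]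
      constructor
      · intro h
        omega
      · intro h
        exact ⟨n2, by omega, by omega⟩
    have e3 : (m - 1 ∈ (Ed x m).filter (fun l => l ≤ q + 1 ∧ q ≤ l + 2)) ↔
        (m - 1 ∈ Ed x m ∧ m ≤ q + 2) := by
      rw [mem_filter]
      constructor
      · intro h
        exact ⟨h.1, by omega⟩
      · intro h
        exact ⟨h.1, by omega, by omega⟩
    simp only [e0, e1, e2, e3]
  rw [h.QQ_pend hij hi1 B hq h0, nq, sum_congr rfl nx]
  have hQ : ∑ l ∈ Ed x m, c l * ((if 0 ∈ Ed x m ∧ l ≤ 2 then 1 else 0) +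
        (if l ≤ 3 then -1 else 0) +
        (if m ≤ l + 4 then -1 else 0) + (if m - 1 ∈ Ed x m ∧ m ≤ l + 3 then 1 else 0)) =
      (if 0 ∈ Ed x m then 0 else 1) + (if m - 1 ∈ Ed x m then 0 else 1) +
        (if m = 5 then 2 else (0 : ℤ)) := by
    have g : ∀ l ∈ Ed x m, ∀ w : ℤ, c l * w = (if l = 0 then w else 0) +
        (if l = 1 then -w else 0) + (if l = m - 2 then -w else 0) +
        (if l = m - 1 then w else 0) := by
      intro l hl w
      rw [pat6_val hp (mem_Ed.1 hl).1]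
      split_ifs <;> ring
    rw [sum_congr rfl (fun l hl => g l hl _), sum_add_distrib, sum_add_distrib, sum_add_distrib,
      sum_ite_eq', sum_ite_eq', sum_ite_eq', sum_ite_eq', if_pos n1, if_pos n2]
    have c1 : ¬ (m ≤ 0 + 4) := by omega
    have c2 : ¬ (m - 1 ∈ Ed x m ∧ m ≤ 0 + 3) := fun h => by omega
    have c3 : (0 : ℕ) ≤ 3 := by omega
    have c4 : (1 : ℕ) ≤ 3 := by omega
    have c5 : ¬ (m - 1 ∈ Ed x m ∧ m ≤ 1 + 3) := fun h => by omega
    have c6 : ¬ (0 ∈ Ed x m ∧ m - 2 ≤ 2) := fun h => by omega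
    have c7 : m ≤ m - 2 + 4 := by omega
    have c8 : ¬ (0 ∈ Ed x m ∧ m - 1 ≤ 2) := fun h => by omega
    have c9 : m ≤ m - 1 + 4 := by omega
    have c10 : ¬ (m - 1 ≤ 3) := by omega
    have d1 : (0 ∈ Ed x m ∧ 0 ≤ 2) ↔ 0 ∈ Ed x m := ⟨fun h => h.1, fun h => ⟨h, by omega⟩⟩
    have d2 : (0 ∈ Ed x m ∧ 1 ≤ 2) ↔ 0 ∈ Ed x m := ⟨fun h => h.1, fun h => ⟨h, by omega⟩⟩
    have d3 : (m - 1 ∈ Ed x m ∧ m ≤ m - 2 + 3) ↔ m - 1 ∈ Ed x m :=
      ⟨fun h => h.1, fun h => ⟨h, by omega⟩⟩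
    have d4 : (m - 1 ∈ Ed x m ∧ m ≤ m - 1 + 3) ↔ m - 1 ∈ Ed x m :=
      ⟨fun h => h.1, fun h => ⟨h, by omega⟩⟩
    have d5 : (m ≤ 1 + 4) ↔ m = 5 := by omega
    have d6 : (m - 2 ≤ 3) ↔ m = 5 := by omega
    rw [if_neg c1, if_neg c2, if_pos c3, if_pos c4, if_neg c5, if_neg c6, if_pos c7, if_neg c8,
      if_pos c9, if_neg c10]
    simp only [d1, d2, d3, d4, d5, d6]
    by_cases a5 : m = 5
    · rw [if_pos a5, if_pos a5]
      by_cases a0 : 0 ∈ Ed x m
      · rw [if_pos a0, if_pos a0, if_pos a0]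
        by_cases a1 : m - 1 ∈ Ed x m
        · rw [if_pos a1, if_pos a1, if_pos a1]
          norm_num
        · rw [if_neg a1, if_neg a1, if_neg a1]
          norm_num
      · rw [if_neg a0, if_neg a0, if_neg a0]
        by_cases a1 : m - 1 ∈ Ed x m
        · rw [if_pos a1, if_pos a1, if_pos a1]
          norm_num
        · rw [if_neg a1, if_neg a1, if_neg a1]
          norm_num
    · rw [if_neg a5, if_neg a5]
      by_cases a0 : 0 ∈ Ed x m
      · rw [if_pos a0, if_pos a0, if_pos a0]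
        by_cases a1 : m - 1 ∈ Ed x m
        · rw [if_pos a1, if_pos a1, if_pos a1]
          norm_num
        · rw [if_neg a1, if_neg a1, if_neg a1]
          norm_num
      · rw [if_neg a0, if_neg a0, if_neg a0]
        by_cases a1 : m - 1 ∈ Ed x m
        · rw [if_pos a1, if_pos a1, if_pos a1]
          norm_num
        · rw [if_neg a1, if_neg a1, if_neg a1]
          norm_num
  rw [hQ]

end row

end Pool.Agent.GaussPoset.Wd
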